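import Pool.Agent.Lib.MP_551055_al.PT.TreeCoh
import Pool.Agent.Lib.MP_551055_al.LS.Coh

/-!
# Products of trees: regular coherent vertex groups and regular noetherian edge groups
-/

set_option autoImplicit false

namespace Pool.Agent.Lib.MP_551055_al.PT

open Pool.Agent.Lib.MP_551055_al
open Pool.Agent.Lib.MP_551055_al.LS
open Pool.Agent.Lib.MP_551055_al.Red (Vec)

universe u v

section

variable {Γ : Type u} [Group Γ] {C : Type v} [MulAction Γ C] {ι : Type} {n : ℕ}

/-- `P` is generated by finitely many elements and the elements of `H`. -/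
def LFG (H : Subgroup Γ) (P : AddSubgroup (F Γ ι)) : Prop :=
  ∃ (β : Type) (_ : Finite β) (g : β → F Γ ι), (∀ k, g k ∈ P) ∧
    P ≤ AddSubgroup.closure {f | ∃ γ ∈ H, ∃ k, f = (MonoidAlgebra.single γ (1 : ℤ) : ZG Γ) • g k}

/-- The additive subgroups generated by the translates `γ g_k` with position `γ q_k = x`. -/
noncomputable def genq {β : Type} (g : β → F Γ ι) (q : β → C) (x : C) : AddSubgroup (F Γ ι) :=
  AddSubgroup.closure {f | ∃ (γ : Γ) (k : β), γ • q k = x ∧
    f = (MonoidAlgebra.single γ (1 : ℤ) : ZG Γ) • g k}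

theorem closure_smul_mem {P Q : AddSubgroup (F Γ ι)} {s : Set (F Γ ι)} {γ : Γ}
    (hP : P = AddSubgroup.closure s)
    (h : ∀ f ∈ s, (MonoidAlgebra.single γ (1 : ℤ) : ZG Γ) • f ∈ Q) {f : F Γ ι} (hf : f ∈ P) :
    (MonoidAlgebra.single γ (1 : ℤ) : ZG Γ) • f ∈ Q := by
  subst hP
  induction hf using AddSubgroup.closure_induction with
  | mem f hf => exact h f hf
  | zero =>
    rw [smul_zero]
    exact AddSubgroup.zero_mem _
  | add a b _ _ h1 h2 =>
    rw [smul_add]
    exact AddSubgroup.add_mem _ h1 h2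
  | neg a _ h1 =>
    rw [smul_neg]
    exact AddSubgroup.neg_mem _ h1

theorem genq_eqv {β : Type} (g : β → F Γ ι) (q : β → C) : Eqv (genq g q) := by
  intro γ x f hf
  refine closure_smul_mem (P := genq g q x) rfl ?_ hf
  rintro _ ⟨δ, k, h1, rfl⟩
  refine AddSubgroup.subset_closure ⟨γ * δ, k, ?_, single_one_smul_smul γ δ (g k)⟩
  rw [mul_smul, h1]

theorem genq_le {β : Type} {g : β → F Γ ι} {q : β → C} {P : C → AddSubgroup (F Γ ι)}
    (hP : Eqv P) (h : ∀ k, g k ∈ P (q k)) (x : C) : genq g q x ≤ P x := by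
  unfold genq
  rw [AddSubgroup.closure_le]
  rintro _ ⟨δ, k, h1, rfl⟩
  rw [← h1]
  exact hP δ _ _ (h k)

theorem genq_mem {β : Type} {g : β → F Γ ι} {q : β → C} (γ : Γ) (k : β) {x : C}
    (h : γ • q k = x) : (MonoidAlgebra.single γ (1 : ℤ) : ZG Γ) • g k ∈ genq g q x :=
  AddSubgroup.subset_closure ⟨γ, k, h, rfl⟩

theorem genq_lfg {β : Type} [Finite β] (g : β → F Γ ι) (q : β → C) (x : C) :
    LFG (MulAction.stabilizer Γ x) (genq g q x) := by
  classical
  refine ⟨{k : β // ∃ γ : Γ, γ • q k = x}, inferInstance,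
    fun k => (MonoidAlgebra.single k.2.choose (1 : ℤ) : ZG Γ) • g k.1,
    fun k => genq_mem _ _ k.2.choose_spec, ?_⟩
  conv_lhs => unfold genq
  rw [AddSubgroup.closure_le]
  rintro _ ⟨δ, k, h1, rfl⟩
  have h2 : ∃ γ : Γ, γ • q k = x := ⟨δ, h1⟩
  refine AddSubgroup.subset_closure ⟨δ * h2.choose⁻¹, ?_, ⟨k, h2⟩, ?_⟩
  · rw [MulAction.mem_stabilizer_iff, mul_smul]
    have h3 : h2.choose⁻¹ • x = q k := by
      rw [inv_smul_eq_iff]
      exact h2.choose_spec.symm
    rw [h3, h1]
  · rw [single_one_smul_smul, inv_mul_cancel_right]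

/-- Locally finitely generated families have finitely generated homogeneous sections. -/
theorem finite_of_lfg {c : Fin n → C} (hc : Function.Injective c)
    {P : C → AddSubgroup (F Γ ι)} {hP : Eqv P} (hcov : Cov c P) {x : C}
    (h : LFG (MulAction.stabilizer Γ x) (P x)) :
    Module.Finite (MonoidAlgebra ℤ (MulAction.stabilizer Γ x)) (homIn (sec c P hP) (cp ι c) x) := by
  classical
  obtain ⟨β, _, g, hg, hle⟩ := h
  let v : β → homIn (sec c P hP) (cp ι c) x := fun k =>
    ⟨(unf c x (g k) : F Γ (ι × Fin n)), unf_in c x (g k), unf_mem_sec hc hcov (hg k)⟩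
  have key : ∀ f ∈ P x, ∃ z ∈ Submodule.span (MonoidAlgebra ℤ (MulAction.stabilizer Γ x))
      (Set.range v), asF z.1 = unf c x f := by
    intro f hf0
    replace hf0 := hle hf0
    induction hf0 using AddSubgroup.closure_induction with
    | mem f hf =>
      obtain ⟨γ, hγ, k, rfl⟩ := hf
      refine ⟨(MonoidAlgebra.single (⟨γ, hγ⟩ : MulAction.stabilizer Γ x) (1 : ℤ) :
        MonoidAlgebra ℤ (MulAction.stabilizer Γ x)) • v k,
        Submodule.smul_mem _ _ (Submodule.subset_span ⟨k, rfl⟩), ?_⟩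
      have h1 := vec_single (⟨γ, hγ⟩ : MulAction.stabilizer Γ x) (1 : ℤ) (v k).1
      have h2 := unf_smul c x γ 1 (g k)
      have h3 : γ • x = x := hγ
      rw [h3] at h2
      rw [h2]
      exact h1
    | zero =>
      refine ⟨0, Submodule.zero_mem _, ?_⟩
      rw [map_zero]
      rfl
    | add f f' _ _ h1 h2 =>
      obtain ⟨z, hz, h1⟩ := h1
      obtain ⟨z', hz', h2⟩ := h2
      refine ⟨z + z', Submodule.add_mem _ hz hz', ?_⟩
      rw [map_add, ← h1, ← h2]
      rfl
    | neg f _ h1 =>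
      obtain ⟨z, hz, h1⟩ := h1
      refine ⟨-z, Submodule.neg_mem _ hz, ?_⟩
      rw [map_neg, ← h1]
      rfl
  refine ⟨Submodule.fg_def.2 ⟨Set.range v, Set.finite_range v, ?_⟩⟩
  rw [eq_top_iff]
  rintro ⟨y, hy1, hy2⟩ -
  obtain ⟨z, hz, h2⟩ := key _ ((mem_sec_of_in hy1).1 hy2)
  rw [unf_eps hc hy1] at h2
  have h3 : z = ⟨y, hy1, hy2⟩ := Subtype.ext h2
  rwa [← h3]

theorem lfg_of_finite {c : Fin n → C} (hc : Function.Injective c)
    {P : C → AddSubgroup (F Γ ι)} {hP : Eqv P} (hcov : Cov c P) {x : C}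
    (h : Module.Finite (MonoidAlgebra ℤ (MulAction.stabilizer Γ x))
      (homIn (sec c P hP) (cp ι c) x)) : LFG (MulAction.stabilizer Γ x) (P x) := by
  classical
  obtain ⟨m, s, hs⟩ := @Module.Finite.exists_fin _ _ _ _ _ h
  have hmem : ∀ f ∈ P x, unf c x f ∈ sec c P hP := fun f hf => unf_mem_sec hc hcov hf
  refine ⟨Fin m, inferInstance, fun k => eps Γ ι n (asF (s k).1), fun k => ?_, fun f hf => ?_⟩
  · exact (mem_sec_of_in (s k).2.1).1 (s k).2.2
  · have key : ∀ z ∈ Submodule.span (MonoidAlgebra ℤ (MulAction.stabilizer Γ x)) (Set.range s),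
        eps Γ ι n (asF z.1) ∈ AddSubgroup.closure {f | ∃ γ ∈ MulAction.stabilizer Γ x, ∃ k,
          f = (MonoidAlgebra.single γ (1 : ℤ) : ZG Γ) • eps Γ ι n (asF (s k).1)} := by
      intro z hz
      induction hz using Submodule.span_induction with
      | mem z hz =>
        obtain ⟨k, rfl⟩ := hz
        refine AddSubgroup.subset_closure ⟨1, Subgroup.one_mem _, k, ?_⟩
        rw [← MonoidAlgebra.one_def, one_smul]
      | zero =>
        have h1 : eps Γ ι n (asF (0 : homIn (sec c P hP) (cp ι c) x).1) = 0 := map_zero _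
        rw [h1]
        exact AddSubgroup.zero_mem _
      | add z z' _ _ h1 h2 =>
        have h3 : eps Γ ι n (asF (z + z' : homIn (sec c P hP) (cp ι c) x).1) =
          eps Γ ι n (asF z.1) + eps Γ ι n (asF z'.1) := map_add _ _ _
        rw [h3]
        exact AddSubgroup.add_mem _ h1 h2
      | smul r z _ h1 =>
        refine vec_smul_induction (y := z.1) (Q := fun y => eps Γ ι n (asF y) ∈
          AddSubgroup.closure {f | ∃ γ ∈ MulAction.stabilizer Γ x, ∃ k,
          f = (MonoidAlgebra.single γ (1 : ℤ) : ZG Γ) • eps Γ ι n (asF (s k).1)}) ?_ ?_ ?_ r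
        · have h1 : eps Γ ι n (asF (0 : Vec (MulAction.stabilizer Γ x) (ι × Fin n))) = 0 :=
            map_zero _
          rw [h1]
          exact AddSubgroup.zero_mem _
        · intro a b ha hb
          have h3 : eps Γ ι n (asF (a + b)) = eps Γ ι n (asF a) + eps Γ ι n (asF b) :=
            map_add _ _ _
          rw [h3]
          exact AddSubgroup.add_mem _ ha hb
        · intro γ a
          rw [vec_single]
          have h3 : eps Γ ι n (asF (H := MulAction.stabilizer Γ x)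
              ((MonoidAlgebra.single (γ : Γ) a : ZG Γ) • asF z.1)) =
              a • ((MonoidAlgebra.single (γ : Γ) (1 : ℤ) : ZG Γ) • eps Γ ι n (asF z.1)) := by
            rw [← single_smul_int]
            exact map_smul _ _ _
          rw [h3]
          refine AddSubgroup.zsmul_mem _ ?_ a
          refine closure_smul_mem rfl ?_ h1
          rintro _ ⟨δ, hδ, k, rfl⟩
          exact AddSubgroup.subset_closure ⟨γ * δ, Subgroup.mul_mem _ γ.2 hδ, k,
            single_one_smul_smul _ _ _⟩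
    have h1 := key ⟨(unf c x f : F Γ (ι × Fin n)), unf_in c x f, hmem f hf⟩ (by
      rw [hs]
      exact Submodule.mem_top)
    have h2 : eps Γ ι n (unf c x f) = f := eps_unf hc (hcov x f hf)
    rw [← h2]
    exact h1

/-- Homogeneous parts over noetherian group rings are finitely generated. -/
theorem finite_homIn_of_noeth (hFree : StHomFree.{u, v}) {κ : Type} [Finite κ] (p : κ → C) (x : C)
    (hx : RegNoeth (MonoidAlgebra ℤ (MulAction.stabilizer Γ x)))
    (B : Submodule (ZG Γ) (F Γ κ)) :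
    Module.Finite (MonoidAlgebra ℤ (MulAction.stabilizer Γ x)) (homIn B p x) := by
  obtain ⟨hN, -⟩ := hx
  obtain ⟨k, ⟨e⟩⟩ := hFree Γ C κ p x
  have h1 : Module.Finite (MonoidAlgebra ℤ (MulAction.stabilizer Γ x))
      (homIn (⊤ : Submodule (ZG Γ) (F Γ κ)) p x) := Module.Finite.equiv e.symm
  have h2 : IsNoetherian (MonoidAlgebra ℤ (MulAction.stabilizer Γ x))
      (homIn (⊤ : Submodule (ZG Γ) (F Γ κ)) p x) :=
    isNoetherian_of_isNoetherianRing_of_finite _ _
  have hle : homIn B p x ≤ homIn (⊤ : Submodule (ZG Γ) (F Γ κ)) p x :=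
    fun y hy => ⟨hy.1, trivial⟩
  exact Module.Finite.of_injective (Submodule.inclusion hle) (Submodule.inclusion_injective hle)

/-- The sections have a finite resolution if the stabilisers are regular coherent. -/
theorem exists_ffr_sec2 (hInd : StInd.{u, v}) (hVec : StVecFree.{u}) [Finite ι] (c : Fin n → C)
    (hc : Function.Injective c)
    (hreg : ∀ k, RegCoh (MonoidAlgebra ℤ (MulAction.stabilizer Γ (c k))))
    (P : C → AddSubgroup (F Γ ι)) (hP : Eqv P) (hcov : Cov c P)
    (hfg : ∀ x, LFG (MulAction.stabilizer Γ x) (P x)) : ∃ d, FFR (ZG Γ) d (sec c P hP) := by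
  classical
  have hloc : ∀ a : ι × Fin n, ∃ d, FFR (MonoidAlgebra ℤ (MulAction.stabilizer Γ (cp ι c a))) d
      (homIn (sec c P hP) (cp ι c) (cp ι c a) ⧸
        (homIn (⊥ : Submodule (ZG Γ) (F Γ (ι × Fin n))) (cp ι c) (cp ι c a)).submoduleOf
          (homIn (sec c P hP) (cp ι c) (cp ι c a))) := by
    intro a
    have hca : RegCoh (MonoidAlgebra ℤ (MulAction.stabilizer Γ (cp ι c a))) := hreg a.2
    have hfree := hVec Γ (MulAction.stabilizer Γ (cp ι c a)) (ι × Fin n)
    have hfin := finite_of_lfg (hP := hP) hc hcov (hfg (cp ι c a))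
    obtain ⟨d, hd⟩ := exists_ffr_of_free hca (homIn (sec c P hP) (cp ι c) (cp ι c a))
      (Module.Finite.iff_fg.1 hfin)
    refine ⟨d, hd.congr (Submodule.quotEquivOfEqBot _ ?_).symm⟩
    rw [eq_bot_iff]
    intro y hy
    have h2 : asF y.1 ∈ (⊥ : Submodule (ZG Γ) (F Γ (ι × Fin n))) := hy.2
    have h3 : asF y.1 = 0 := (Submodule.mem_bot (ZG Γ)).1 h2
    exact (Submodule.mem_bot _).2 (Subtype.ext h3)
  choose D hD using hloc
  have := Fintype.ofFinite (ι × Fin n)
  have h := hInd Γ C (Finset.univ.sup D) (ι × Fin n) (cp ι c) ⊥ (sec c P hP) bot_le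
    (fun Q y hy => by
      rw [(Submodule.mem_bot (ZG Γ)).1 hy, map_zero]
      exact Submodule.zero_mem _)
    (fun Q y hy => pr_mem_sec Q hy)
    (fun a => (hD a).mono (Finset.le_sup (f := D) (Finset.mem_univ a)))
  refine ⟨_, h.congr (Submodule.quotEquivOfEqBot _ ?_)⟩
  rw [eq_bot_iff]
  intro y hy
  exact (Submodule.mem_bot (ZG Γ)).2 (Subtype.ext ((Submodule.mem_bot (ZG Γ)).1 hy))

end

/-- Module TreeCoh2. -/
def StTreeCoh2 : Prop :=
  ∀ (Γ : Type u) [Group Γ] (V : Type v) [MulAction Γ V] (T : SimpleGraph V), TreeAct Γ V T →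
    (∀ v : V, RegCoh (MonoidAlgebra ℤ (MulAction.stabilizer Γ v))) →
    (∀ u v : V, T.Adj u v → RegNoeth (MonoidAlgebra ℤ (MulAction.stabilizer Γ (u, v)))) →
    RegCoh (ZG Γ)

theorem mem_iSup_genq {Γ : Type u} [Group Γ] {V : Type v} [MulAction Γ V] {ι β : Type}
    {g : β → F Γ ι} {q : β → V} (s : ZG Γ) {f : F Γ ι} (hf : f ∈ ⨆ v, genq g q v) :
    s • f ∈ ⨆ v, genq g q v := by
  refine smul_induction (Q := fun y => y ∈ ⨆ v, genq g q v) (AddSubgroup.zero_mem _)
    (fun a b ha hb => AddSubgroup.add_mem _ ha hb) (fun γ a => ?_) s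
  rw [single_smul_int]
  refine AddSubgroup.zsmul_mem _ ?_ a
  induction hf using AddSubgroup.iSup_induction' with
  | hp v f hf => exact AddSubgroup.mem_iSup_of_mem (γ • v) (genq_eqv g q γ v f hf)
  | h1 =>
    rw [smul_zero]
    exact AddSubgroup.zero_mem _
  | hadd a b _ _ h1 h2 =>
    rw [smul_add]
    exact AddSubgroup.add_mem _ h1 h2

/-- Module TreeCoh2. -/
theorem stTreeCoh2 (hTreeC : StTreeC.{u, v}) (hSat : StSatMV.{u, v}) (hMV : StMV.{u, v})
    (hInd : StInd.{u, v}) (hFree : StHomFree.{u, v}) (hVec : StVecFree.{u})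
    (hSes : StPSes.{u}) : StTreeCoh2.{u, v} := by
  classical
  intro Γ _ V _ T hT hv he M _ _ hM
  obtain ⟨_, O, hO1, hO2⟩ := hTreeC Γ V T hT
  have hO : Ori Γ T O := ⟨hO1, hO2⟩
  obtain ⟨r, f, hf⟩ := Module.Finite.exists_fin' (ZG Γ) M
  have hK : (LinearMap.ker f).FG := Module.FinitePresentation.fg_ker f hf
  obtain ⟨A, n, m, c, b, hA, hmv, hsup⟩ := hSat Γ V T hT O hO (Fin r) (LinearMap.ker f) hK
  -- finitely many generators of the kernel with positions
  have hspan : LinearMap.ker f =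
      Submodule.span (ZG Γ) {x | ∃ v, x ∈ sat (LinearMap.ker f) A v} := by
    apply le_antisymm
    · intro x hx
      have h1 : (⨆ v, sat (LinearMap.ker f) A v) ≤
          (Submodule.span (ZG Γ) {x | ∃ v, x ∈ sat (LinearMap.ker f) A v}).toAddSubgroup :=
        iSup_le fun v y hy => Submodule.subset_span ⟨v, hy⟩
      exact h1 (hsup x hx)
    · rw [Submodule.span_le]
      rintro x ⟨v, hx⟩
      exact hx.1
  obtain ⟨s, hs, hs'⟩ := (Submodule.fg_span_iff_fg_span_finset_subset _).1 (hspan ▸ hK)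
  have hq0 : ∀ k : Fin s.card, ∃ v, ((s.equivFin.symm k : s) : F Γ (Fin r)) ∈
      sat (LinearMap.ker f) A v := fun k => hs (s.equivFin.symm k).2
  choose q₀ hq₀ using hq0
  -- the edges
  have hle : ∀ k, LFG (MulAction.stabilizer Γ (b k)) (sat (LinearMap.ker f) (SE T O A) (b k)) :=
    fun k => lfg_of_finite (hP := hmv.eqe) hmv.injb hmv.cove
      (finite_homIn_of_noeth hFree _ _ (he (b k).1 (b k).2 (hmv.bO k).2) _)
  choose B hB g₁ hg₁ hle₁ using hle
  let β : Type := Fin s.card ⊕ ((Σ k : Fin m, B k) ⊕ (Σ k : Fin m, B k))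
  have hβ : Finite β := inferInstance
  let g : β → F Γ (Fin r) := Sum.elim (fun k => (s.equivFin.symm k : s))
    (Sum.elim (fun a => g₁ a.1 a.2) (fun a => g₁ a.1 a.2))
  let q : β → V := Sum.elim q₀ (Sum.elim (fun a => (b a.1).1) (fun a => (b a.1).2))
  have hgsat : ∀ k, g k ∈ sat (LinearMap.ker f) A (q k) := by
    intro k
    rcases k with k | a | a
    · exact hq₀ k
    · exact (hmv.sub (b a.1) (hmv.bO a.1).1 (hmv.bO a.1).2 (hg₁ a.1 a.2)).1
    · exact (hmv.sub (b a.1) (hmv.bO a.1).1 (hmv.bO a.1).2 (hg₁ a.1 a.2)).2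
  have hPle : ∀ v, genq g q v ≤ sat (LinearMap.ker f) A v := genq_le (sat_eqv _ _) hgsat
  have hsub : ∀ e ∈ O, T.Adj e.1 e.2 →
      sat (LinearMap.ker f) (SE T O A) e ≤ genq g q e.1 ⊓ genq g q e.2 := by
    intro e heO hadj x hx
    by_cases hx0 : ∃ (j : Fin r) (γ : Γ), (x j).coeff γ ≠ 0
    · obtain ⟨j, γ, hne⟩ := hx0
      obtain ⟨k, hk⟩ := hmv.cove e x hx j γ hne
      have h1 := sat_eqv (LinearMap.ker f) (SE T O A) γ⁻¹ e x hx
      rw [← hk] at h1
      have h2 := hle₁ k h1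
      have h3 : x = (MonoidAlgebra.single γ (1 : ℤ) : ZG Γ) •
          ((MonoidAlgebra.single γ⁻¹ (1 : ℤ) : ZG Γ) • x) := by
        rw [single_one_smul_smul, mul_inv_cancel, ← MonoidAlgebra.one_def, one_smul]
      have hγ : γ • b k = e := by rw [hk, smul_inv_smul]
      rw [h3]
      constructor
      · refine closure_smul_mem rfl ?_ h2
        rintro _ ⟨δ, hδ, l, rfl⟩
        rw [single_one_smul_smul]
        refine genq_mem (g := g) (q := q) (γ * δ) (Sum.inr (Sum.inl ⟨k, l⟩)) ?_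
        change (γ * δ) • (b k).1 = e.1
        have h4 : δ • b k = b k := hδ
        rw [mul_smul]
        have h5 : δ • (b k).1 = (b k).1 := congrArg Prod.fst h4
        rw [h5]
        exact congrArg Prod.fst hγ
      · refine closure_smul_mem rfl ?_ h2
        rintro _ ⟨δ, hδ, l, rfl⟩
        rw [single_one_smul_smul]
        refine genq_mem (g := g) (q := q) (γ * δ) (Sum.inr (Sum.inr ⟨k, l⟩)) ?_
        change (γ * δ) • (b k).2 = e.2
        have h4 : δ • b k = b k := hδ
        rw [mul_smul]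
        have h5 : δ • (b k).2 = (b k).2 := congrArg Prod.snd h4
        rw [h5]
        exact congrArg Prod.snd hγ
    · have h1 : x = 0 := by
        refine F_ext fun j γ => ?_
        by_contra h2
        exact hx0 ⟨j, γ, h2⟩
      rw [h1]
      exact AddSubgroup.zero_mem _
  have hmv2 : MV T O (genq g q) (sat (LinearMap.ker f) (SE T O A)) c b :=
    { eqv := genq_eqv g q
      eqe := hmv.eqe
      covv := fun x y hy => hmv.covv x y (hPle x hy)
      cove := hmv.cove
      injc := hmv.injc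
      injb := hmv.injb
      bO := hmv.bO
      sub := hsub
      cut := fun e heO hadj y =>
        ⟨fun h1 h2 => (hmv.cut e heO hadj y).1 (hPle _ h1)
            (iSup₂_mono (fun w _ => hPle w) h2),
          fun h1 h2 => (hmv.cut e heO hadj y).2 (hPle _ h1)
            (iSup₂_mono (fun w _ => hPle w) h2)⟩ }
  have hsup2 : ∀ y ∈ LinearMap.ker f, y ∈ ⨆ v, genq g q v := by
    intro y hy
    rw [hspan, hs'] at hy
    induction hy using Submodule.span_induction with
    | mem y hy =>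
      have h1 : ((s.equivFin.symm (s.equivFin ⟨y, hy⟩) : s) : F Γ (Fin r)) = y := by
        rw [Equiv.symm_apply_apply]
      have h2 := genq_mem (g := g) (q := q) (1 : Γ) (Sum.inl (s.equivFin ⟨y, hy⟩))
        (one_smul Γ (q (Sum.inl (s.equivFin ⟨y, hy⟩))))
      rw [← MonoidAlgebra.one_def, one_smul] at h2
      have h3 : g (Sum.inl (s.equivFin ⟨y, hy⟩)) = y := h1
      rw [h3] at h2
      exact AddSubgroup.mem_iSup_of_mem _ h2
    | zero => exact AddSubgroup.zero_mem _
    | add a b _ _ h1 h2 => exact AddSubgroup.add_mem _ h1 h2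
    | smul a y _ h1 => exact mem_iSup_genq a h1
  obtain ⟨d, hinj, hker, hsur, _⟩ := hMV Γ V T hT O hO (Fin r) (genq g q)
    (sat (LinearMap.ker f) (SE T O A)) n m c b hmv2
  obtain ⟨d₀, hd₀⟩ := exists_ffr_sec2 hInd hVec c hmv.injc (fun k => hv (c k)) (genq g q)
    hmv2.eqv hmv2.covv (genq_lfg g q)
  obtain ⟨d₁, hd₁⟩ := exists_ffr_sec hInd hFree b
    (fun k => he (b k).1 (b k).2 (hmv.bO k).2) (sat (LinearMap.ker f) (SE T O A)) hmv2.eqe
  have hmem : ∀ y : sec c (genq g q) hmv2.eqv,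
      (eps Γ (Fin r) n ∘ₗ (sec c (genq g q) hmv2.eqv).subtype) y ∈ LinearMap.ker f := by
    intro y
    obtain ⟨s, hs⟩ := exists_finset (cp (Fin r) c) (y : F Γ (Fin r × Fin n))
    have h1 : (eps Γ (Fin r) n) (y : F Γ (Fin r × Fin n)) =
        ∑ x ∈ s, eps Γ (Fin r) n (pr (cp (Fin r) c) {x} (y : F Γ (Fin r × Fin n))) := by
      rw [← map_sum, sum_pr, hs.eq]
    change (eps Γ (Fin r) n) (y : F Γ (Fin r × Fin n)) ∈ LinearMap.ker f
    rw [h1]
    exact Submodule.sum_mem _ fun x _ => (hPle x (y.2 x)).1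
  let Q : sec c (genq g q) hmv2.eqv →ₗ[ZG Γ] LinearMap.ker f :=
    LinearMap.codRestrict (LinearMap.ker f)
      (eps Γ (Fin r) n ∘ₗ (sec c (genq g q) hmv2.eqv).subtype) hmem
  have hQ : Function.Surjective Q := by
    rintro ⟨k, hk⟩
    obtain ⟨y, hy⟩ := hsur k (hsup2 k hk)
    exact ⟨y, Subtype.ext hy⟩
  have hdQ : LinearMap.range d = LinearMap.ker Q := by
    rw [hker]
    exact (LinearMap.ker_codRestrict _ _ _).symm
  have hFK : FFR (ZG Γ) (max d₀ d₁ + 1) (LinearMap.ker f) :=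
    hSes (ZG Γ) (max d₀ d₁) _ _ _ d Q hinj hQ hdQ (hd₁.mono (le_max_right _ _))
      (hd₀.mono (le_max_left _ _))
  exact ⟨max d₀ d₁ + 1 + 1, r, f, hf, hFK⟩

end Pool.Agent.Lib.MP_551055_al.PT
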