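import Pool.Agent.Lib.MP_551055_al.PT.Stmts

/-!
# Products of trees, module PSub: subgroups of poly-`ℤ` groups
-/

set_option autoImplicit false

namespace Pool.Agent.Lib.MP_551055_al.PT

open Pool.Agent.Lib.MP_551055_al
open Pool.Agent.Lib.MP_551055_al.LS

/-- A homomorphism to `ℤ` which is not trivial can be divided by a positive integer to become
surjective. -/
theorem PSub.exists_surj {H : Type} [Group H] (g : H →* Multiplicative ℤ)
    (hg : ∃ h, g h ≠ 1) : ∃ g' : H →* Multiplicative ℤ, Function.Surjective g' ∧ g'.ker = g.ker := by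
  obtain ⟨a, ha⟩ := Int.subgroup_cyclic (MonoidHom.toAdditiveLeft g).range
  have ha0 : a ≠ 0 := by
    rintro rfl
    obtain ⟨h, hh⟩ := hg
    apply hh
    have h1 : Multiplicative.toAdd (g h) ∈ AddSubgroup.closure ({0} : Set ℤ) := by
      rw [← ha]; exact ⟨Additive.ofMul h, rfl⟩
    rw [AddSubgroup.mem_closure_singleton] at h1
    obtain ⟨n, hn⟩ := h1
    rw [smul_zero] at hn
    exact (Multiplicative.toAdd.injective (by rw [toAdd_one]; exact hn)).symm
  have hdvd : ∀ h, a ∣ Multiplicative.toAdd (g h) := by
    intro h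
    have h1 : Multiplicative.toAdd (g h) ∈ AddSubgroup.closure ({a} : Set ℤ) := by
      rw [← ha]; exact ⟨Additive.ofMul h, rfl⟩
    rw [AddSubgroup.mem_closure_singleton] at h1
    obtain ⟨n, hn⟩ := h1
    exact ⟨n, by rw [← hn, smul_eq_mul, mul_comm]⟩
  refine ⟨{ toFun := fun h => Multiplicative.ofAdd (Multiplicative.toAdd (g h) / a)
            map_one' := by rw [map_one, toAdd_one, Int.zero_ediv]; rfl
            map_mul' := fun x y => by
              rw [map_mul, toAdd_mul, Int.add_ediv_of_dvd_left (hdvd x), ofAdd_add] }, ?_, ?_⟩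
  · intro k
    have h1 : a * Multiplicative.toAdd k ∈ (MonoidHom.toAdditiveLeft g).range := by
      rw [ha, AddSubgroup.mem_closure_singleton]
      exact ⟨Multiplicative.toAdd k, by rw [smul_eq_mul, mul_comm]⟩
    obtain ⟨h, hh⟩ := h1
    refine ⟨Additive.toMul h, ?_⟩
    have h2 : Multiplicative.toAdd (g (Additive.toMul h)) = a * Multiplicative.toAdd k := hh
    change Multiplicative.ofAdd (Multiplicative.toAdd (g (Additive.toMul h)) / a) = k
    rw [h2, Int.mul_ediv_cancel_left _ ha0]
    rfl
  · ext h
    rw [MonoidHom.mem_ker, MonoidHom.mem_ker]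
    change Multiplicative.ofAdd (Multiplicative.toAdd (g h) / a) = 1 ↔ g h = 1
    constructor
    · intro h1
      have h2 : Multiplicative.toAdd (g h) / a = 0 := h1
      have h3 := Int.ediv_mul_cancel (hdvd h)
      rw [h2, zero_mul] at h3
      exact Multiplicative.toAdd.injective (by rw [toAdd_one]; exact h3.symm)
    · intro h1
      rw [h1, toAdd_one, Int.zero_ediv]
      rfl

theorem PSub.of_injective : ∀ (G : Type) [Group G], PolyZ G → ∀ (H : Type) [Group H]
    (i : H →* G), Function.Injective i → PolyZ H := by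
  intro G _ hG
  induction hG with
  | triv G hs =>
    intro H _ i hi
    exact PolyZ.triv H ⟨fun x y => hi (Subsingleton.elim _ _)⟩
  | ext G f hf hk ih =>
    intro H _ i hi
    by_cases h : ∃ h, f (i h) ≠ 1
    · obtain ⟨g', hg', hker⟩ := PSub.exists_surj (f.comp i) h
      refine PolyZ.ext H g' hg' ?_
      have hm : ∀ x : g'.ker, i x ∈ f.ker := by
        intro x
        have h1 : (x : H) ∈ (f.comp i).ker := by rw [← hker]; exact x.2
        exact h1
      refine ih g'.ker ((i.comp g'.ker.subtype).codRestrict f.ker hm) ?_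
      intro x y hxy
      exact Subtype.ext (hi (congrArg Subtype.val hxy))
    · push Not at h
      refine ih H (i.codRestrict f.ker h) ?_
      intro x y hxy
      exact hi (congrArg Subtype.val hxy)

theorem stPSub : StPSub := fun G _ hG H => PSub.of_injective G hG H H.subtype H.subtype_injective

end Pool.Agent.Lib.MP_551055_al.PT
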