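import Pool.Agent.Lib.MP_551055_al.PT.Stmts
import Pool.Agent.Lib.MP_551055_al.PT.PSub
import Pool.Agent.Lib.MP_551055_al.PT.TreeCoh2
import Pool.Agent.Lib.MP_551055_al.LS.Clo2
import Pool.Agent.Lib.MP_551055_al.LS.PFin
import Pool.Agent.Lib.MP_551055_al.LS.PPoly

/-!
# Products of trees: the closure theorems
-/

set_option autoImplicit false

namespace Pool.Agent.Lib.MP_551055_al.PT

open Pool.Agent.Lib.MP_551055_al
open Pool.Agent.Lib.MP_551055_al.LS

/-- The closure theorem for two trees. -/
theorem closure_two_trees (hF : StFinalT.{0, 0}) (n : ℕ) (G : Type) [Group G] (V : Type)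
    [MulAction G V] (T : SimpleGraph V) (hT : TreeAct G V T) (V' : Type) [MulAction G V']
    (T' : SimpleGraph V') (hT' : TreeAct G V' T')
    (hv : ∀ v : V, VN.ProjStFree (MulAction.stabilizer G v × ZN n))
    (he : ∀ u v, T.Adj u v → VN.ProjStFree (MulAction.stabilizer G (u, v) × ZN (n + 1)))
    (S : V → V → Prop) (hbar : Bar T S)
    (hx : ∀ u v, S u v → u ≠ v → ∀ w : V',
      RegCoh (MonoidAlgebra ℤ (MulAction.stabilizer G ((u, v), w) × ZN (n + 1)))) :
    VN.ProjStFree (G × ZN n) := by
  let _ : MulAction (G × ZN n) V := MulAction.compHom V (MonoidHom.fst G (ZN n))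
  let _ : MulAction (G × ZN n) V' := MulAction.compHom V' (MonoidHom.fst G (ZN n))
  have hA : TreeAct (G × ZN n) V T :=
    { tree := hT.tree
      adj := fun γ a b hab => hT.adj γ.1 a b hab
      inv := fun γ a b hab h => hT.inv γ.1 a b hab h }
  have hA' : TreeAct (G × ZN n) V' T' :=
    { tree := hT'.tree
      adj := fun γ a b hab => hT'.adj γ.1 a b hab
      inv := fun γ a b hab h => hT'.inv γ.1 a b hab h }
  have hst1 : ∀ a : V, Nonempty (MulAction.stabilizer G a × ZN n ≃*
      MulAction.stabilizer (G × ZN n) a) := by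
    intro a
    exact ⟨{ toFun := fun γ => ⟨(γ.1.1, γ.2), γ.1.2⟩
             invFun := fun γ => (⟨γ.1.1, γ.2⟩, γ.1.2)
             left_inv := fun _ => rfl
             right_inv := fun _ => rfl
             map_mul' := fun _ _ => rfl }⟩
  have hst2 : ∀ a : V × V, Nonempty (MulAction.stabilizer G a × ZN n ≃*
      MulAction.stabilizer (G × ZN n) a) := by
    intro a
    exact ⟨{ toFun := fun γ => ⟨(γ.1.1, γ.2), γ.1.2⟩
             invFun := fun γ => (⟨γ.1.1, γ.2⟩, γ.1.2)
             left_inv := fun _ => rfl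
             right_inv := fun _ => rfl
             map_mul' := fun _ _ => rfl }⟩
  have hst3 : ∀ a : (V × V) × V', Nonempty (MulAction.stabilizer G a × ZN n ≃*
      MulAction.stabilizer (G × ZN n) a) := by
    intro a
    exact ⟨{ toFun := fun γ => ⟨(γ.1.1, γ.2), γ.1.2⟩
             invFun := fun γ => (⟨γ.1.1, γ.2⟩, γ.1.2)
             left_inv := fun _ => rfl
             right_inv := fun _ => rfl
             map_mul' := fun _ _ => rfl }⟩
  refine hF (G × ZN n) V T hA V' T' hA' (fun v => ?_) (fun u v huv => ?_) S hbar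
    fun u v huv hne w => ?_
  · obtain ⟨e⟩ := hst1 v
    exact projStFree_congr e (hv v)
  · obtain ⟨e⟩ := hst2 (u, v)
    exact projStFree_congr ((znSucc (MulAction.stabilizer G (u, v)) n).symm.trans
      (MulEquiv.prodCongr e (MulEquiv.refl (Multiplicative ℤ)))) (he u v huv)
  · have h1 := hx u v huv hne w
    have hsw : MulAction.stabilizer G ((u, v), w) = MulAction.stabilizer G ((v, u), w) := by
      ext γ
      rw [MulAction.mem_stabilizer_iff, MulAction.mem_stabilizer_iff]
      constructor
      · intro h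
        have h3 : γ • w = w := congrArg Prod.snd h
        exact Prod.ext (Prod.ext (congrArg (fun a => a.1.2) h) (congrArg (fun a => a.1.1) h)) h3
      · intro h
        have h3 : γ • w = w := congrArg Prod.snd h
        exact Prod.ext (Prod.ext (congrArg (fun a => a.1.2) h) (congrArg (fun a => a.1.1) h)) h3
    rw [hsw] at h1
    obtain ⟨e⟩ := hst3 ((v, u), w)
    exact RegCoh.congr (MonoidAlgebra.mapDomainRingEquiv ℤ
      ((znSucc (MulAction.stabilizer G ((v, u), w)) n).symm.trans
      (MulEquiv.prodCongr e (MulEquiv.refl (Multiplicative ℤ))))) h1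

/-- The groups obtained from poly-`ℤ` groups by actions on trees with poly-`ℤ` edge stabilisers. -/
inductive Tame : ∀ (G : Type) [Group G], Prop
  | poly (G : Type) [Group G] : PolyZ G → Tame G
  | tree (G : Type) [Group G] (V : Type) [MulAction G V] (T : SimpleGraph V) : TreeAct G V T →
      (∀ v : V, Tame (MulAction.stabilizer G v)) →
      (∀ u v : V, T.Adj u v → PolyZ (MulAction.stabilizer G (u, v))) → Tame G

/-- Tame groups are regular coherent. -/
theorem Tame.regCoh (hCoh : StTreeCoh2.{0, 0}) (hP : StPFin) {D : Type} [Group D] (h : Tame D) :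
    ∀ m : ℕ, RegCoh (MonoidAlgebra ℤ (D × ZN m)) := by
  induction h with
  | poly D hD =>
    intro m M _ _ hM
    exact (hP D hD m).2 M inferInstance
  | tree D V T hT hv he ih =>
    intro m
    let _ : MulAction (D × ZN m) V := MulAction.compHom V (MonoidHom.fst D (ZN m))
    have hA : TreeAct (D × ZN m) V T :=
      { tree := hT.tree
        adj := fun γ a b hab => hT.adj γ.1 a b hab
        inv := fun γ a b hab h => hT.inv γ.1 a b hab h }
    refine hCoh (D × ZN m) V T hA (fun v => ?_) (fun u v huv => ?_)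
    · exact RegCoh.congr (MonoidAlgebra.mapDomainRingEquiv ℤ
        { toFun := fun γ => ⟨(γ.1.1, γ.2), γ.1.2⟩
          invFun := fun γ => (⟨γ.1.1, γ.2⟩, γ.1.2)
          left_inv := fun _ => rfl
          right_inv := fun _ => rfl
          map_mul' := fun _ _ => rfl }) (ih v m)
    · exact regNoeth_mulEquiv
        { toFun := fun γ => ⟨(γ.1.1, γ.2), γ.1.2⟩
          invFun := fun γ => (⟨γ.1.1, γ.2⟩, γ.1.2)
          left_inv := fun _ => rfl
          right_inv := fun _ => rfl
          map_mul' := fun _ _ => rfl } (hP (MulAction.stabilizer D (u, v)) (he u v huv) m)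

/-- The action of a group on a tree through a homomorphism. -/
theorem tcomp {G H : Type} [Group G] [Group H] {V : Type} [MulAction G V] [MulAction H V]
    {T : SimpleGraph V} (h : TreeAct G V T) (f : H →* G) (hf : ∀ (γ : H) (v : V), γ • v = f γ • v) :
    TreeAct H V T :=
  { tree := h.tree
    adj := fun γ a b hab => by
      rw [hf, hf]
      exact h.adj (f γ) a b hab
    inv := fun γ a b hab h1 => by
      rw [hf] at h1 ⊢
      exact h.inv (f γ) a b hab h1 }

/-- Groups which embed into tame groups are tame. -/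
theorem Tame.of_injective {G : Type} [Group G] (h : Tame G) : ∀ (H : Type) [Group H] (f : H →* G),
    Function.Injective f → Tame H := by
  induction h with
  | poly G hG => exact fun H _ f hf => Tame.poly H (PSub.of_injective G hG H f hf)
  | tree G V T hT hv he ih =>
    intro H _ f hf
    let _ : MulAction H V := MulAction.compHom V f
    refine Tame.tree H V T (tcomp hT f fun _ _ => rfl) (fun v => ?_) (fun u v huv => ?_)
    · refine ih v (MulAction.stabilizer H v) ((f.comp (MulAction.stabilizer H v).subtype).codRestrict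
        (MulAction.stabilizer G v) fun γ => γ.2) ?_
      intro x y hxy
      exact Subtype.ext (hf (congrArg (fun z : MulAction.stabilizer G v => (z : G)) hxy))
    · refine PSub.of_injective (MulAction.stabilizer G (u, v)) (he u v huv)
        (MulAction.stabilizer H (u, v)) ((f.comp (MulAction.stabilizer H (u, v)).subtype).codRestrict
        (MulAction.stabilizer G (u, v)) fun γ => γ.2) ?_
      intro x y hxy
      exact Subtype.ext (hf (congrArg (fun z : MulAction.stabilizer G (u, v) => (z : G)) hxy))

theorem Tame.sub {G : Type} [Group G] {K : Subgroup G} (h : Tame K) {H : Subgroup G} (hle : H ≤ K) :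
    Tame H :=
  h.of_injective H (Subgroup.inclusion hle) (Subgroup.inclusion_injective hle)

/-- The finitely generated projective modules over tame groups are stably free. -/
theorem Tame.projStFree (hR : StFinalR.{0, 0}) (hP : StPFin) (hPoly : StPPoly) {D : Type}
    [Group D] (h : Tame D) : ∀ n : ℕ, VN.ProjStFree (D × ZN n) := by
  induction h with
  | poly D hD => exact fun n => hPoly D hD n
  | tree D V T hT hv he ih =>
    intro n
    exact closure_trees hR hP n D V T hT (fun v => ih v n) (fun u v huv => hPoly _ (he u v huv) (n + 1))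
      (fun x hx _ => ⟨1, le_rfl, Or.inl (he _ _ (hx 0))⟩)

/-- The action of a subgroup on a tree. -/
theorem tsub {G : Type} [Group G] {V : Type} [MulAction G V] {T : SimpleGraph V}
    (h : TreeAct G V T) (H : Subgroup G) : TreeAct H V T :=
  { tree := h.tree
    adj := fun γ a b hab => h.adj (γ : G) a b hab
    inv := fun γ a b hab h1 => h.inv (γ : G) a b hab h1 }

/-- Stabilisers within subgroups are tame if they are contained in tame groups. -/
theorem tame_stab {G : Type} [Group G] {V : Type} [MulAction G V] (H K : Subgroup G)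
    (hK : Tame K) (v : V) (h : ∀ γ ∈ H, γ • v = v → γ ∈ K) :
    Tame (MulAction.stabilizer H v) := by
  refine hK.of_injective (MulAction.stabilizer H v)
    ((H.subtype.comp (MulAction.stabilizer H v).subtype).codRestrict K
      fun γ => h _ γ.1.2 γ.2) ?_
  intro x y hxy
  exact Subtype.ext (Subtype.ext (congrArg (fun z : K => (z : G)) hxy))

/-- One tree. -/
theorem projStFree_one (hR : StFinalR.{0, 0}) (hCoh : StTreeCoh2.{0, 0}) (hP : StPFin)
    (hPoly : StPPoly) (G : Type) [Group G] (V : Type) [MulAction G V] (T : SimpleGraph V)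
    (hT : TreeAct G V T) (h : ∀ v : V, Tame (MulAction.stabilizer G v)) (n : ℕ) :
    VN.ProjStFree (G × ZN n) := by
  have h2 : ∀ a : V × V, MulAction.stabilizer G a ≤ MulAction.stabilizer G a.1 :=
    fun a γ hγ => congrArg Prod.fst hγ
  have h3 : ∀ a : V × V, Tame (MulAction.stabilizer G a) := fun a => (h a.1).sub (h2 a)
  exact closure_trees hR hP n G V T hT (fun v => (h v).projStFree hR hP hPoly n)
    (fun u v _ => (h3 (u, v)).projStFree hR hP hPoly (n + 1))
    (fun x _ _ => ⟨1, le_rfl, Or.inr fun m => (h3 _).regCoh hCoh hP m⟩)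

/-- Two trees. -/
theorem projStFree_two (hF : StFinalT.{0, 0}) (hR : StFinalR.{0, 0}) (hCoh : StTreeCoh2.{0, 0})
    (hP : StPFin) (hPoly : StPPoly) (G : Type) [Group G] (V V' : Type) [MulAction G V]
    [MulAction G V'] (T : SimpleGraph V) (T' : SimpleGraph V') (hT : TreeAct G V T)
    (hT' : TreeAct G V' T')
    (h : ∀ (v : V) (v' : V'), Tame (MulAction.stabilizer G (v, v'))) (n : ℕ) :
    VN.ProjStFree (G × ZN n) := by
  have h1 : ∀ H : Subgroup G, (∃ v : V, H ≤ MulAction.stabilizer G v) → ∀ m : ℕ,
      VN.ProjStFree (H × ZN m) := by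
    rintro H ⟨v, hv⟩ m
    exact projStFree_one hR hCoh hP hPoly H V' T' (tsub hT' H)
      (fun v' => tame_stab H _ (h v v') v' fun γ hγ hγ' => Prod.ext (hv hγ) hγ') m
  have h2 : ∀ a : V × V, MulAction.stabilizer G a ≤ MulAction.stabilizer G a.1 :=
    fun a γ hγ => congrArg Prod.fst hγ
  refine closure_two_trees hF n G V T hT V' T' hT' (fun v => h1 _ ⟨v, le_rfl⟩ n)
    (fun u v _ => h1 _ ⟨u, h2 (u, v)⟩ (n + 1)) (fun _ _ => True)
    ⟨fun _ _ _ _ _ _ => trivial, fun _ _ _ => ⟨1, le_rfl, trivial⟩⟩ fun u v _ _ w => ?_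
  have h4 : MulAction.stabilizer G ((u, v), w) ≤ MulAction.stabilizer G (u, w) := by
    intro γ hγ
    have h3 : γ • ((u, v), w) = ((u, v), w) := hγ
    have h5 : γ • w = w := congrArg Prod.snd h3
    have h6 : γ • u = u := congrArg (fun a => a.1.1) h3
    exact Prod.ext h6 h5
  exact ((h u w).sub h4).regCoh hCoh hP (n + 1)

/-- Three trees. -/
theorem tame_third (G : Type) [Group G] (V₁ V₂ V₃ : Type) [MulAction G V₁]
    [MulAction G V₂] [MulAction G V₃] (T₃ : SimpleGraph V₃) (hT₃ : TreeAct G V₃ T₃)
    (h : ∀ (v₁ : V₁) (v₂ : V₂) (v₃ : V₃), PolyZ (MulAction.stabilizer G (v₁, v₂, v₃)))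
    (v₁ : V₁) (v₂ : V₂) : Tame (MulAction.stabilizer G (v₁, v₂)) := by
  have h1 : ∀ v₃ : V₃, PolyZ (MulAction.stabilizer (MulAction.stabilizer G (v₁, v₂)) v₃) := by
    intro v₃
    refine PSub.of_injective _ (h v₁ v₂ v₃) _
      (((MulAction.stabilizer G (v₁, v₂)).subtype.comp
        (MulAction.stabilizer (MulAction.stabilizer G (v₁, v₂)) v₃).subtype).codRestrict
        (MulAction.stabilizer G (v₁, v₂, v₃)) fun γ => ?_) ?_
    · have h2 : (γ.1 : G) • (v₁, v₂) = (v₁, v₂) := γ.1.2
      have h3 : (γ.1 : G) • v₃ = v₃ := γ.2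
      have h5 : (γ.1 : G) • v₁ = v₁ := congrArg Prod.fst h2
      have h6 : (γ.1 : G) • v₂ = v₂ := congrArg Prod.snd h2
      exact Prod.ext h5 (Prod.ext h6 h3)
    · intro x y hxy
      exact Subtype.ext (Subtype.ext (congrArg (fun z : MulAction.stabilizer G (v₁, v₂, v₃) =>
        (z : G)) hxy))
  refine Tame.tree _ V₃ T₃ (tsub hT₃ _) (fun v₃ => Tame.poly _ (h1 v₃)) (fun u v _ => ?_)
  refine PSub.of_injective _ (h1 u) _
    ((MulAction.stabilizer (MulAction.stabilizer G (v₁, v₂)) (u, v)).subtype.codRestrict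
      (MulAction.stabilizer (MulAction.stabilizer G (v₁, v₂)) u) fun γ => ?_) ?_
  · have h2 : γ.1 • (u, v) = (u, v) := γ.2
    exact congrArg Prod.fst h2
  · intro x y hxy
    exact Subtype.ext (congrArg (fun z : MulAction.stabilizer
      (MulAction.stabilizer G (v₁, v₂)) u => (z : MulAction.stabilizer G (v₁, v₂))) hxy)

end Pool.Agent.Lib.MP_551055_al.PT
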