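import Pool.Agent.Lib.MP_551055_al.PT.Stmts
import Pool.Agent.Lib.MP_551055_al.LS.TreeA

/-!
# Module Hull: finite edge convex hulls in trees
-/

set_option autoImplicit false

namespace Pool.Agent.Lib.MP_551055_al.PT

open Pool.Agent.Lib.MP_551055_al
open Pool.Agent.Lib.MP_551055_al.LS

universe v

section

variable {V : Type v} {T : SimpleGraph V}

/-- If `o` is on the side of `u`, `x` on the side of `v` and `x` is on the geodesic from `o` to `b`,
then `u` and `v` are on this geodesic. -/
theorem hull_step (hT : T.IsTree) {o x b u v : V} (huv : T.Adj u v) (ho : o ∉ side T u v)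
    (hx : x ∈ side T u v) (hb : T.dist o x + T.dist x b = T.dist o b) :
    T.dist o u + T.dist u b = T.dist o b ∧ T.dist o v + T.dist v b = T.dist o b := by
  rw [mem_side_iff] at ho hx
  have h1 : T.dist u v = 1 := T.dist_eq_one_iff_adj.2 huv
  have h2 : T.dist o v = T.dist o u + T.dist u v := by
    rcases hT.dist_eq_dist_add_one_of_adj o huv with h | h <;> omega
  have h3 : T.dist u x = T.dist u v + T.dist v x := by
    rw [T.dist_comm (u := u) (v := x), T.dist_comm (u := v) (v := x)]
    rcases hT.dist_eq_dist_add_one_of_adj x huv with h | h <;> omega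
  have h4 := tree_dist_add' hT h2 h3 huv.ne
  have h5 := hT.connected.dist_triangle (u := o) (v := u) (w := b)
  have h6 := hT.connected.dist_triangle (u := o) (v := v) (w := b)
  have h7 := hT.connected.dist_triangle (u := u) (v := x) (w := b)
  have h8 := hT.connected.dist_triangle (u := v) (v := x) (w := b)
  omega

/-- The points on the geodesics from `o` to the points of `B`. -/
def hull (T : SimpleGraph V) (o : V) (B : Set V) : Set V :=
  {x | ∃ b ∈ B, T.dist o x + T.dist x b = T.dist o b}

theorem hull_finite (hT : T.IsTree) (o : V) {B : Set V} (hB : B.Finite) : (hull T o B).Finite := by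
  have h : hull T o B = ⋃ b ∈ B, {x | T.dist o x + T.dist x b = T.dist o b} := by
    ext x
    simp only [hull, Set.mem_ofPred_eq, Set.mem_iUnion, exists_prop]
  rw [h]
  refine hB.biUnion fun b _ => ?_
  refine Set.Finite.of_finite_image (f := fun x => T.dist o x)
    ((Set.finite_Iic (T.dist o b)).subset ?_) ?_
  · rintro _ ⟨x, hx, rfl⟩
    have hx' : T.dist o x + T.dist x b = T.dist o b := hx
    change T.dist o x ≤ T.dist o b
    omega
  · intro x hx y hy hxy
    have hx' : T.dist o x + T.dist x b = T.dist o b := hx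
    have hy' : T.dist o y + T.dist y b = T.dist o b := hy
    exact tree_eq_of_dist hT hx'.symm hy'.symm hxy

theorem hull_ec (hT : T.IsTree) (o : V) (B : Set V) : EC T (hull T o B) := by
  rintro u v huv ⟨x, ⟨b, hb, hxb⟩, hx⟩ ⟨x', ⟨b', hb', hxb'⟩, hx'⟩
  by_cases ho : o ∈ side T u v
  · have ho' : o ∉ side T v u := by
      rw [← side_compl hT huv]
      exact fun h => h ho
    have hx'' : x' ∈ side T v u := by
      rw [← side_compl hT huv]
      exact hx'
    obtain ⟨h1, h2⟩ := hull_step hT huv.symm ho' hx'' hxb'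
    exact ⟨⟨b', hb', h2⟩, ⟨b', hb', h1⟩⟩
  · obtain ⟨h1, h2⟩ := hull_step hT huv ho hx hxb
    exact ⟨⟨b, hb, h1⟩, ⟨b, hb, h2⟩⟩

end

/-- Module Hull. -/
theorem stHull : StHull.{v} := by
  intro V T hT B hB
  rcases B.eq_empty_or_nonempty with rfl | ⟨o, _⟩
  · refine ⟨∅, Set.finite_empty, le_refl _, ?_⟩
    rintro u v _ ⟨x, hx, _⟩ _
    exact absurd hx (Set.notMem_empty x)
  · refine ⟨hull T o B, hull_finite hT o hB, fun b hb => ⟨b, hb, ?_⟩, hull_ec hT o B⟩
    rw [T.dist_self, add_zero]

end Pool.Agent.Lib.MP_551055_al.PT
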