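import Pool.Agent.Lib.MP_551055_al.PT.Stmts
import Pool.Agent.Lib.MP_551055_al.LS.Fil

/-!
# Products of trees: basic facts on sections
-/

set_option autoImplicit false

namespace Pool.Agent.Lib.MP_551055_al.PT

open Pool.Agent.Lib.MP_551055_al
open Pool.Agent.Lib.MP_551055_al.LS
open Pool.Agent.Lib.MP_551055_al.Red (res res_coeff res_single_mul Vec)

universe u v w

variable {Γ : Type u} [Group Γ] {C : Type v} [MulAction Γ C] {ι : Type} {n : ℕ}

/-- The vector at the position `x` with sum `f`. -/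
noncomputable def unf (c : Fin n → C) (x : C) : F Γ ι →+ F Γ (ι × Fin n) where
  toFun f := fun a => res {γ : Γ | γ • c a.2 = x} (f a.1)
  map_zero' := by
    funext a
    exact map_zero _
  map_add' f f' := by
    funext a
    exact map_add _ _ _

open Classical in
theorem unf_coeff (c : Fin n → C) (x : C) (f : F Γ ι) (j : ι) (k : Fin n) (γ : Γ) :
    (unf c x f (j, k)).coeff γ = if γ • c k = x then (f j).coeff γ else 0 := by
  change (res {γ : Γ | γ • c k = x} (f j)).coeff γ = _
  rw [res_coeff]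
  rfl

theorem unf_in (c : Fin n → C) (x : C) (f : F Γ ι) : In (cp ι c) {x} (unf c x f) := by
  classical
  refine in_iff.2 fun a γ h => ?_
  obtain ⟨j, k⟩ := a
  rw [unf_coeff] at h
  by_contra h1
  have h2 : ¬ γ • c k = x := h1
  apply h
  rw [if_neg h2]

/-- The coefficients of a vector with one position. -/
theorem coeff_eq_zero_of_in {c : Fin n → C} {x : C} {y : F Γ (ι × Fin n)}
    (hy : In (cp ι c) {x} y) {j : ι} {k : Fin n} {γ : Γ} (h : γ • c k ≠ x) :
    (y (j, k)).coeff γ = 0 := by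
  by_contra hne
  exact h (in_iff.1 hy (j, k) γ hne)

theorem coeff_sum' {α : Type} (s : Finset α) (f : α → ZG Γ) (γ : Γ) :
    (∑ k ∈ s, f k).coeff γ = ∑ k ∈ s, (f k).coeff γ := by
  classical
  induction s using Finset.induction_on with
  | empty => rfl
  | insert a s ha ih =>
    rw [Finset.sum_insert ha, Finset.sum_insert ha, MonoidAlgebra.coeff_add, Finsupp.add_apply, ih]

theorem eps_coeff (y : F Γ (ι × Fin n)) (j : ι) (γ : Γ) :
    (eps Γ ι n y j).coeff γ = ∑ k : Fin n, (y (j, k)).coeff γ := by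
  rw [eps_apply, coeff_sum']

/-- The coefficients of the sum of a vector with one position. -/
theorem eps_coeff_of_in {c : Fin n → C} (hc : Function.Injective c) {x : C}
    {y : F Γ (ι × Fin n)} (hy : In (cp ι c) {x} y) (j : ι) (k : Fin n) (γ : Γ)
    (h : γ • c k = x) : (eps Γ ι n y j).coeff γ = (y (j, k)).coeff γ := by
  rw [eps_coeff]
  refine Finset.sum_eq_single k (fun k' _ hk' => ?_) fun h' => absurd (Finset.mem_univ k) h'
  refine coeff_eq_zero_of_in hy fun h' => hk' (hc ?_)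
  exact smul_left_cancel γ (h'.trans h.symm)

theorem eps_coeff_ne {c : Fin n → C} {x : C} {y : F Γ (ι × Fin n)} (hy : In (cp ι c) {x} y)
    {j : ι} {γ : Γ} (h : (eps Γ ι n y j).coeff γ ≠ 0) : γ⁻¹ • x ∈ Set.range c := by
  by_contra h1
  apply h
  rw [eps_coeff]
  refine Finset.sum_eq_zero fun k _ => coeff_eq_zero_of_in hy fun h2 => h1 ⟨k, ?_⟩
  rw [← h2, inv_smul_smul]

/-- A vector with one position is determined by its sum. -/
theorem unf_eps {c : Fin n → C} (hc : Function.Injective c) {x : C} {y : F Γ (ι × Fin n)}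
    (hy : In (cp ι c) {x} y) : unf c x (eps Γ ι n y) = y := by
  classical
  refine F_ext fun a γ => ?_
  obtain ⟨j, k⟩ := a
  rw [unf_coeff]
  split_ifs with h
  · exact eps_coeff_of_in hc hy j k γ h
  · exact (coeff_eq_zero_of_in hy h).symm

theorem eq_of_eps {c : Fin n → C} (hc : Function.Injective c) {x : C} {y z : F Γ (ι × Fin n)}
    (hy : In (cp ι c) {x} y) (hz : In (cp ι c) {x} z) (h : eps Γ ι n y = eps Γ ι n z) : y = z := by
  rw [← unf_eps hc hy, h, unf_eps hc hz]

theorem eps_unf {c : Fin n → C} (hc : Function.Injective c) {x : C} {f : F Γ ι}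
    (h : ∀ (j : ι) (γ : Γ), (f j).coeff γ ≠ 0 → γ⁻¹ • x ∈ Set.range c) :
    eps Γ ι n (unf c x f) = f := by
  classical
  refine F_ext fun j γ => ?_
  by_cases h1 : (f j).coeff γ = 0
  · rw [h1, eps_coeff]
    refine Finset.sum_eq_zero fun k _ => ?_
    rw [unf_coeff, h1]
    split_ifs <;> rfl
  · obtain ⟨k, hk⟩ := h j γ h1
    have h2 : γ • c k = x := by rw [hk, smul_inv_smul]
    rw [eps_coeff_of_in hc (unf_in c x f) j k γ h2, unf_coeff, if_pos h2]

theorem unf_smul (c : Fin n → C) (x : C) (γ : Γ) (a : ℤ) (f : F Γ ι) :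
    unf c (γ • x) ((MonoidAlgebra.single γ a : ZG Γ) • f) =
      (MonoidAlgebra.single γ a : ZG Γ) • unf c x f := by
  classical
  refine F_ext fun b g => ?_
  obtain ⟨j, k⟩ := b
  rw [unf_coeff, single_smul_coeff, single_smul_coeff, unf_coeff]
  by_cases h : g • c k = γ • x
  · rw [if_pos h, if_pos (by rw [mul_smul, h, inv_smul_smul])]
  · rw [if_neg h, if_neg, mul_zero]
    intro h1
    apply h
    rw [mul_smul] at h1
    rw [← h1, smul_inv_smul]

/-- The part at `x` of a section. -/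
theorem unf_mem_sec {c : Fin n → C} (hc : Function.Injective c) {P : C → AddSubgroup (F Γ ι)}
    {hP : Eqv P} (hcov : Cov c P) {x : C} {f : F Γ ι} (hf : f ∈ P x) :
    unf c x f ∈ sec c P hP := by
  intro x'
  by_cases h : x' = x
  · rw [h, (unf_in c x f).eq, eps_unf hc (hcov x f hf)]
    exact hf
  · rw [(unf_in c x f).pr_eq_zero (Set.disjoint_singleton.2 h), map_zero]
    exact (P x').zero_mem

/-- A vector with position `x` is a section if and only if its sum is in `P x`. -/
theorem mem_sec_of_in {c : Fin n → C} {P : C → AddSubgroup (F Γ ι)} {hP : Eqv P} {x : C}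
    {y : F Γ (ι × Fin n)} (hy : In (cp ι c) {x} y) : y ∈ sec c P hP ↔ eps Γ ι n y ∈ P x := by
  constructor
  · intro h
    have h1 := h x
    rwa [hy.eq] at h1
  · intro h x'
    by_cases hx : x' = x
    · rw [hx, hy.eq]
      exact h
    · rw [hy.pr_eq_zero (Set.disjoint_singleton.2 hx), map_zero]
      exact (P x').zero_mem

/-- The sections form a graded submodule. -/
theorem pr_mem_sec {c : Fin n → C} {P : C → AddSubgroup (F Γ ι)} {hP : Eqv P} (Q : Set C)
    {y : F Γ (ι × Fin n)} (hy : y ∈ sec c P hP) : pr (cp ι c) Q y ∈ sec c P hP := by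
  intro x
  rw [pr_pr]
  by_cases hx : x ∈ Q
  · rw [Set.inter_eq_left.2 (Set.singleton_subset_iff.2 hx)]
    exact hy x
  · rw [Set.singleton_inter_eq_empty.2 hx, pr_empty, map_zero]
    exact (P x).zero_mem

section Two

variable {X : Type w} [MulAction Γ X]

/-- Parts with respect to the positions in `X` and sums. -/
theorem eps_pr (p : ι → X) (Q : Set X) (y : F Γ (ι × Fin n)) :
    eps Γ ι n (pr (fun a : ι × Fin n => p a.1) Q y) = pr p Q (eps Γ ι n y) := by
  classical
  refine F_ext fun j γ => ?_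
  rw [eps_coeff, pr_coeff, eps_coeff]
  by_cases h : γ • p j ∈ Q
  · rw [if_pos h]
    exact Finset.sum_congr rfl fun k _ => by rw [pr_coeff, if_pos h]
  · rw [if_neg h]
    exact Finset.sum_eq_zero fun k _ => by rw [pr_coeff, if_neg h]

/-- The parts at pairs of positions. -/
theorem pr_prod (p : ι → X) (c : Fin n → C) (Q : Set (X × C)) (x : C) (y : F Γ (ι × Fin n)) :
    pr (cp ι c) {x} (pr (fun a : ι × Fin n => (p a.1, c a.2)) Q y) =
      pr (fun a : ι × Fin n => p a.1) {a | (a, x) ∈ Q} (pr (cp ι c) {x} y) := by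
  classical
  refine F_ext fun a γ => ?_
  rw [pr_coeff, pr_coeff, pr_coeff, pr_coeff]
  by_cases h : γ • cp ι c a ∈ ({x} : Set C)
  · have h1 : γ • c a.2 = x := h
    have h2 : γ • (p a.1, c a.2) ∈ Q ↔ γ • p a.1 ∈ {b | (b, x) ∈ Q} := by
      rw [← h1]
      exact Iff.rfl
    rw [if_pos h, if_pos h]
    by_cases h3 : γ • p a.1 ∈ {b | (b, x) ∈ Q}
    · rw [if_pos h3, if_pos (h2.2 h3)]
    · rw [if_neg h3, if_neg fun h4 => h3 (h2.1 h4)]
  · rw [if_neg h, if_neg h]
    split_ifs <;> rfl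

theorem pr_prod_sum (p : ι → X) (c : Fin n → C) (Q : Set (X × C)) (x : C)
    (y : F Γ (ι × Fin n)) :
    eps Γ ι n (pr (cp ι c) {x} (pr (fun a : ι × Fin n => (p a.1, c a.2)) Q y)) =
      pr p {a | (a, x) ∈ Q} (eps Γ ι n (pr (cp ι c) {x} y)) := by
  rw [pr_prod, eps_pr]

/-- Sections of graded families are graded. -/
theorem pr_mem_sec' (p : ι → X) {c : Fin n → C} {P : C → AddSubgroup (F Γ ι)} {hP : Eqv P}
    (hg : ∀ x, ∀ f ∈ P x, ∀ Q : Set X, pr p Q f ∈ P x) (Q : Set (X × C)) {y : F Γ (ι × Fin n)}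
    (hy : y ∈ sec c P hP) : pr (fun a : ι × Fin n => (p a.1, c a.2)) Q y ∈ sec c P hP := by
  intro x
  rw [pr_prod_sum]
  exact hg x _ (hy x) _

/-- Vectors with one pair of positions. -/
theorem in_prod_iff (p : ι → X) (c : Fin n → C) (a : X) (x : C) (y : F Γ (ι × Fin n)) :
    In (fun a : ι × Fin n => (p a.1, c a.2)) {(a, x)} y ↔
      In (fun a : ι × Fin n => p a.1) {a} y ∧ In (cp ι c) {x} y := by
  rw [in_iff, in_iff, in_iff]
  constructor
  · intro h
    refine ⟨fun i γ hne => ?_, fun i γ hne => ?_⟩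
    · exact congrArg Prod.fst (h i γ hne)
    · exact congrArg Prod.snd (h i γ hne)
  · rintro ⟨h1, h2⟩ i γ hne
    exact Prod.ext (h1 i γ hne) (h2 i γ hne)

theorem in_prod_eps {p : ι → X} {c : Fin n → C} {a : X} {x : C} {y : F Γ (ι × Fin n)}
    (hy : In (fun a : ι × Fin n => (p a.1, c a.2)) {(a, x)} y) : In p {a} (eps Γ ι n y) := by
  have h := ((in_prod_iff p c a x y).1 hy).1
  unfold In at h ⊢
  rw [← eps_pr, h]

theorem in_prod_unf {p : ι → X} {c : Fin n → C} {a : X} {x : C} {f : F Γ ι} (hf : In p {a} f) :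
    In (fun a : ι × Fin n => (p a.1, c a.2)) {(a, x)} (unf c x f) := by
  classical
  rw [in_prod_iff]
  refine ⟨in_iff.2 fun b γ hne => ?_, unf_in c x f⟩
  obtain ⟨j, k⟩ := b
  rw [unf_coeff] at hne
  split_ifs at hne with h
  · exact in_iff.1 hf j γ hne
  · exact absurd rfl hne

/-- The family `gen g S` is graded. -/
theorem pr_mem_gen {β : Type} {g : β → F Γ ι} {p : ι → X} {q : β → X}
    (hg : ∀ k, In p {q k} (g k)) {S : Set C} {x : C} {f : F Γ ι} (hf : f ∈ gen g S x)
    (Q : Set X) : pr p Q f ∈ gen g S x := by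
  classical
  unfold gen at hf
  induction hf using AddSubgroup.closure_induction with
  | mem f hf =>
    obtain ⟨γ, k, h1, rfl⟩ := hf
    have h2 := (hg k).smul_singleton γ 1
    by_cases h3 : γ • q k ∈ Q
    · rw [(h2.mono (Set.singleton_subset_iff.2 h3)).eq]
      exact AddSubgroup.subset_closure ⟨γ, k, h1, rfl⟩
    · rw [h2.pr_eq_zero (Set.disjoint_singleton_right.2 h3)]
      exact AddSubgroup.zero_mem _
  | zero =>
    rw [map_zero]
    exact AddSubgroup.zero_mem _
  | add a b _ _ h1 h2 =>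
    rw [map_add]
    exact AddSubgroup.add_mem _ h1 h2
  | neg a _ h1 =>
    rw [map_neg]
    exact AddSubgroup.neg_mem _ h1

end Two

theorem gen_subset {β : Type} {g : β → F Γ ι} {S : Set C} {x : C} {γ : Γ} (h : γ⁻¹ • x ∈ S)
    {f : F Γ ι} (hf : f ∈ AddSubgroup.closure (Set.range g)) :
    (MonoidAlgebra.single γ (1 : ℤ) : ZG Γ) • f ∈ gen g S x := by
  induction hf using AddSubgroup.closure_induction with
  | mem f hf =>
    obtain ⟨k, rfl⟩ := hf
    exact AddSubgroup.subset_closure ⟨γ, k, h, rfl⟩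
  | zero =>
    rw [smul_zero]
    exact AddSubgroup.zero_mem _
  | add a b _ _ h1 h2 =>
    rw [smul_add]
    exact AddSubgroup.add_mem _ h1 h2
  | neg a _ h1 =>
    rw [smul_neg]
    exact AddSubgroup.neg_mem _ h1

/-- The family `gen g S` is stable under `ν`. -/
theorem map_mem_gen {β : Type} {g : β → F Γ ι} {ν : F Γ ι →ₗ[ZG Γ] F Γ ι}
    (hν : ∀ k, ν (g k) ∈ AddSubgroup.closure (Set.range g)) {S : Set C} {x : C} {f : F Γ ι}
    (hf : f ∈ gen g S x) : ν f ∈ gen g S x := by
  unfold gen at hf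
  induction hf using AddSubgroup.closure_induction with
  | mem f hf =>
    obtain ⟨γ, k, h1, rfl⟩ := hf
    rw [map_smul]
    exact gen_subset h1 (hν k)
  | zero =>
    rw [map_zero]
    exact AddSubgroup.zero_mem _
  | add a b _ _ h1 h2 =>
    rw [map_add]
    exact AddSubgroup.add_mem _ h1 h2
  | neg a _ h1 =>
    rw [map_neg]
    exact AddSubgroup.neg_mem _ h1

end Pool.Agent.Lib.MP_551055_al.PT
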