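import Pool.Agent.Lib.MP_551055_al.LS.Stmts3
import Pool.Agent.Lib.MP_551055_al.LS.PStmts

/-!
# Products of trees: definitions and statements of the modules
-/

set_option autoImplicit false

namespace Pool.Agent.Lib.MP_551055_al.PT

open Pool.Agent.Lib.MP_551055_al
open Pool.Agent.Lib.MP_551055_al.LS
open Pool.Agent.Lib.MP_551055_al.Red (Vec)

universe u v w

/-! ## Trees -/

/-- Edge convex sets of vertices: if `A` meets both sides of an edge, it contains the edge. -/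
def EC {V : Type v} (T : SimpleGraph V) (A : Set V) : Prop :=
  ∀ u v, T.Adj u v → (∃ x ∈ A, x ∈ side T u v) → (∃ x ∈ A, x ∉ side T u v) → u ∈ A ∧ v ∈ A

/-- Module Hull. -/
def StHull : Prop :=
  ∀ (V : Type v) (T : SimpleGraph V), T.IsTree → ∀ B : Set V, B.Finite →
    ∃ A : Set V, A.Finite ∧ B ⊆ A ∧ EC T A

/-- The positively oriented edges within `A`. -/
def SE {V : Type v} (T : SimpleGraph V) (O : Set (V × V)) (A : Set V) : Set (V × V) :=
  {e | e ∈ O ∧ T.Adj e.1 e.2 ∧ e.1 ∈ A ∧ e.2 ∈ A}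

/-- `O` is an invariant orientation. -/
structure Ori (Γ : Type u) [Group Γ] {V : Type v} [MulAction Γ V] (T : SimpleGraph V)
    (O : Set (V × V)) : Prop where
  inv : ∀ (γ : Γ), ∀ a ∈ O, γ • a ∈ O
  ori : ∀ u v, T.Adj u v → ((u, v) ∈ O ↔ (v, u) ∉ O)

/-! ## Families of additive subgroups -/

section

variable {Γ : Type u} [Group Γ] {C : Type v} [MulAction Γ C] {ι : Type} {n : ℕ}

/-- The sum over the second index. -/
noncomputable def eps (Γ : Type u) [Group Γ] (ι : Type) (n : ℕ) :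
    F Γ (ι × Fin n) →ₗ[ZG Γ] F Γ ι where
  toFun y := fun j => ∑ k : Fin n, y (j, k)
  map_add' y z := by
    funext j
    rw [Pi.add_apply, ← Finset.sum_add_distrib]
    rfl
  map_smul' s y := by
    funext j
    rw [RingHom.id_apply, Pi.smul_apply, Finset.smul_sum]
    rfl

theorem eps_apply (y : F Γ (ι × Fin n)) (j : ι) : eps Γ ι n y j = ∑ k : Fin n, y (j, k) := rfl

/-- The positions of the basis vectors in `C`. -/
def cp (ι : Type) (c : Fin n → C) : ι × Fin n → C := fun a => c a.2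

/-- A family of additive subgroups which is compatible with the action of `Γ`. -/
def Eqv (P : C → AddSubgroup (F Γ ι)) : Prop :=
  ∀ (γ : Γ) (x : C), ∀ f ∈ P x, (MonoidAlgebra.single γ (1 : ℤ) : ZG Γ) • f ∈ P (γ • x)

/-- All group elements `γ` which occur in elements of `P x` satisfy `γ⁻¹ x ∈ range c`. -/
def Cov (c : Fin n → C) (P : C → AddSubgroup (F Γ ι)) : Prop :=
  ∀ (x : C), ∀ f ∈ P x, ∀ (j : ι) (γ : Γ), (f j).coeff γ ≠ 0 → γ⁻¹ • x ∈ Set.range c

theorem single_smul_int (γ : Γ) (a : ℤ) (f : F Γ ι) :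
    (MonoidAlgebra.single γ a : ZG Γ) • f = a • ((MonoidAlgebra.single γ (1 : ℤ) : ZG Γ) • f) := by
  refine F_ext fun i g => ?_
  change _ = (a • (((MonoidAlgebra.single γ (1 : ℤ) : ZG Γ) • f) i)).coeff g
  rw [MonoidAlgebra.coeff_smul, Finsupp.smul_apply, single_smul_coeff, single_smul_coeff, one_mul,
    smul_eq_mul]

/-- The sections of the family `P`: the vectors whose part at the position `x` is in `P x`. -/
noncomputable def sec (c : Fin n → C) (P : C → AddSubgroup (F Γ ι)) (hP : Eqv P) :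
    Submodule (ZG Γ) (F Γ (ι × Fin n)) where
  carrier := {y | ∀ x, eps Γ ι n (pr (cp ι c) {x} y) ∈ P x}
  add_mem' h h' x := by rw [map_add, map_add]; exact (P x).add_mem (h x) (h' x)
  zero_mem' x := by rw [map_zero, map_zero]; exact (P x).zero_mem
  smul_mem' s y h := by
    refine smul_induction (Q := fun y => ∀ x, eps Γ ι n (pr (cp ι c) {x} y) ∈ P x) (fun x => ?_)
      (fun a b h h' x => ?_) (fun γ a x => ?_) s
    · rw [map_zero, map_zero]
      exact (P x).zero_mem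
    · rw [map_add, map_add]
      exact (P x).add_mem (h x) (h' x)
    · have hx : x = γ • (γ⁻¹ • x) := by rw [smul_smul, mul_inv_cancel, one_smul]
      rw [hx, pr_smul_singleton, map_smul, single_smul_int]
      exact (P _).zsmul_mem (hP γ _ _ (h _)) a

theorem mem_sec {c : Fin n → C} {P : C → AddSubgroup (F Γ ι)} {hP : Eqv P}
    {y : F Γ (ι × Fin n)} : y ∈ sec c P hP ↔ ∀ x, eps Γ ι n (pr (cp ι c) {x} y) ∈ P x := Iff.rfl

/-- The additive subgroups generated by the translates `γ g_k` with `γ⁻¹ x ∈ S`. -/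
noncomputable def gen {β : Type} (g : β → F Γ ι) (S : Set C) (x : C) : AddSubgroup (F Γ ι) :=
  AddSubgroup.closure {f | ∃ (γ : Γ) (k : β), γ⁻¹ • x ∈ S ∧
    f = (MonoidAlgebra.single γ (1 : ℤ) : ZG Γ) • g k}

theorem single_one_smul_smul (γ δ : Γ) (f : F Γ ι) :
    (MonoidAlgebra.single γ (1 : ℤ) : ZG Γ) • ((MonoidAlgebra.single δ (1 : ℤ) : ZG Γ) • f) =
      (MonoidAlgebra.single (γ * δ) (1 : ℤ) : ZG Γ) • f := by
  rw [smul_smul, MonoidAlgebra.single_mul_single, one_mul]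

theorem gen_eqv {β : Type} (g : β → F Γ ι) (S : Set C) : Eqv (gen g S) := by
  intro γ x f hf
  unfold gen at hf ⊢
  induction hf using AddSubgroup.closure_induction with
  | mem f hf =>
    obtain ⟨δ, k, h1, rfl⟩ := hf
    refine AddSubgroup.subset_closure ⟨γ * δ, k, ?_, single_one_smul_smul γ δ (g k)⟩
    rw [smul_smul, mul_inv_rev, mul_assoc, inv_mul_cancel, mul_one]
    exact h1
  | zero =>
    rw [smul_zero]
    exact AddSubgroup.zero_mem _
  | add a b _ _ h1 h2 =>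
    rw [smul_add]
    exact AddSubgroup.add_mem _ h1 h2
  | neg a _ h1 =>
    rw [smul_neg]
    exact AddSubgroup.neg_mem _ h1

/-- The elements of `K` all of whose group elements `γ` satisfy `γ⁻¹ x ∈ S`. -/
def sat (K : Submodule (ZG Γ) (F Γ ι)) (S : Set C) (x : C) : AddSubgroup (F Γ ι) where
  carrier := {f | f ∈ K ∧ ∀ (j : ι) (γ : Γ), (f j).coeff γ ≠ 0 → γ⁻¹ • x ∈ S}
  zero_mem' := ⟨K.zero_mem, fun _ _ h => absurd rfl h⟩
  add_mem' {a b} ha hb := by
    refine ⟨K.add_mem ha.1 hb.1, fun j γ h => ?_⟩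
    by_cases h1 : (a j).coeff γ = 0
    · refine hb.2 j γ fun h2 => h ?_
      rw [Pi.add_apply, MonoidAlgebra.coeff_add, Finsupp.add_apply, h1, h2, add_zero]
    · exact ha.2 j γ h1
  neg_mem' {a} ha := by
    refine ⟨K.neg_mem ha.1, fun j γ h => ha.2 j γ fun h2 => h ?_⟩
    rw [Pi.neg_apply, MonoidAlgebra.coeff_neg, Finsupp.neg_apply, h2, neg_zero]

theorem mem_sat {K : Submodule (ZG Γ) (F Γ ι)} {S : Set C} {x : C} {f : F Γ ι} :
    f ∈ sat K S x ↔ f ∈ K ∧ ∀ (j : ι) (γ : Γ), (f j).coeff γ ≠ 0 → γ⁻¹ • x ∈ S := Iff.rfl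

theorem sat_eqv (K : Submodule (ZG Γ) (F Γ ι)) (S : Set C) : Eqv (sat K S) := by
  rintro γ x f ⟨h1, h2⟩
  refine ⟨K.smul_mem _ h1, fun j g hg => ?_⟩
  rw [single_smul_coeff, one_mul] at hg
  have h3 := h2 j _ hg
  rwa [mul_inv_rev, inv_inv, mul_smul] at h3

end

/-! ## The Mayer-Vietoris sequence -/

/-- The conditions for the Mayer-Vietoris sequence. -/
structure MV {Γ : Type u} [Group Γ] {V : Type v} [MulAction Γ V] {ι : Type} (T : SimpleGraph V)
    (O : Set (V × V)) (Pv : V → AddSubgroup (F Γ ι)) (Pe : V × V → AddSubgroup (F Γ ι)) {n m : ℕ}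
    (c : Fin n → V) (b : Fin m → V × V) : Prop where
  eqv : Eqv Pv
  eqe : Eqv Pe
  covv : Cov c Pv
  cove : Cov b Pe
  injc : Function.Injective c
  injb : Function.Injective b
  bO : ∀ k, b k ∈ O ∧ T.Adj (b k).1 (b k).2
  sub : ∀ e ∈ O, T.Adj e.1 e.2 → Pe e ≤ Pv e.1 ⊓ Pv e.2
  cut : ∀ e ∈ O, T.Adj e.1 e.2 → ∀ f : F Γ ι,
    (f ∈ Pv e.1 → f ∈ (⨆ w ∈ side T e.1 e.2, Pv w) → f ∈ Pe e) ∧
    (f ∈ Pv e.2 → f ∈ (⨆ w ∈ side T e.2 e.1, Pv w) → f ∈ Pe e)

/-- Module MV. -/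
def StMV : Prop :=
  ∀ (Γ : Type u) [Group Γ] (V : Type v) [MulAction Γ V] (T : SimpleGraph V), TreeAct Γ V T →
    ∀ (O : Set (V × V)), Ori Γ T O →
    ∀ (ι : Type) [Finite ι] (Pv : V → AddSubgroup (F Γ ι)) (Pe : V × V → AddSubgroup (F Γ ι))
      (n m : ℕ) (c : Fin n → V) (b : Fin m → V × V) (h : MV T O Pv Pe c b),
      ∃ d : sec b Pe h.eqe →ₗ[ZG Γ] sec c Pv h.eqv,
        Function.Injective d ∧
        LinearMap.range d = LinearMap.ker (eps Γ ι n ∘ₗ (sec c Pv h.eqv).subtype) ∧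
        (∀ f : F Γ ι, f ∈ (⨆ v, Pv v) →
          f ∈ LinearMap.range (eps Γ ι n ∘ₗ (sec c Pv h.eqv).subtype)) ∧
        ∀ (e : V × V) (z : sec b Pe h.eqe), In (cp ι b) {e} (z : F Γ (ι × Fin m)) →
          ∃ y₁ y₂ : F Γ (ι × Fin n), In (cp ι c) {e.1} y₁ ∧ In (cp ι c) {e.2} y₂ ∧
            eps Γ ι n y₁ = eps Γ ι m z ∧ eps Γ ι n y₂ = eps Γ ι m z ∧
            ((d z : sec c Pv h.eqv) : F Γ (ι × Fin n)) = y₂ - y₁

/-- Module GenMV. -/
def StGenMV : Prop :=
  ∀ (Γ : Type u) [Group Γ] (V : Type v) [MulAction Γ V] (T : SimpleGraph V), TreeAct Γ V T →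
    ∀ (O : Set (V × V)), Ori Γ T O →
    ∀ (ι : Type) [Finite ι] (β : Type) [Finite β] (g : β → F Γ ι),
      (∀ [DecidableEq ι] (j : ι), ∃ k, g k = Pi.single j 1) →
      ∃ (A : Set V) (n m : ℕ) (c : Fin n → V) (b : Fin m → V × V), A.Finite ∧
        MV T O (gen g A) (gen g (SE T O A)) c b ∧ ∀ f : F Γ ι, f ∈ ⨆ v, gen g A v

/-- Module SatMV. -/
def StSatMV : Prop :=
  ∀ (Γ : Type u) [Group Γ] (V : Type v) [MulAction Γ V] (T : SimpleGraph V), TreeAct Γ V T →
    ∀ (O : Set (V × V)), Ori Γ T O →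
    ∀ (ι : Type) [Finite ι] (K : Submodule (ZG Γ) (F Γ ι)), K.FG →
      ∃ (A : Set V) (n m : ℕ) (c : Fin n → V) (b : Fin m → V × V), A.Finite ∧
        MV T O (sat K A) (sat K (SE T O A)) c b ∧ ∀ f ∈ K, f ∈ ⨆ v, sat K A v

/-! ## Graded generators, filtrations -/

/-- Module Gr. The homogeneous components of the vectors `ν ^ a e_j`. -/
def StGr : Prop :=
  ∀ (Γ : Type u) [Group Γ] (X : Type v) [MulAction Γ X] (r : X → X → Prop), UR (Γ := Γ) r →
    ∀ (ι : Type) [Finite ι] (p : ι → X) (ν : Module.End (ZG Γ) (F Γ ι)), IsNilpotent ν →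
    Tr r p p ν →
    ∃ (β : Type) (_ : Finite β) (g : β → F Γ ι) (q : β → X), (∀ k, In p {q k} (g k)) ∧
      (∀ k, ν (g k) ∈ AddSubgroup.closure (Set.range g)) ∧
      (∀ [DecidableEq ι] (j : ι), ∃ k, g k = Pi.single j 1)

/-- Module FG. The homogeneous parts of the sections of `gen g S` are finitely generated over the
group rings of the stabilisers. -/
def StFG : Prop :=
  ∀ (Γ : Type u) [Group Γ] (X : Type v) [MulAction Γ X] (C : Type v) [MulAction Γ C]
    (ι : Type) [Finite ι] (p : ι → X) (β : Type) [Finite β] (g : β → F Γ ι) (q : β → X),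
    (∀ k, In p {q k} (g k)) → ∀ (S : Set C), S.Finite → ∀ (n : ℕ) (c : Fin n → C),
    Function.Injective c → Cov c (gen g S) → ∀ (a : X) (x : C),
      Module.Finite (MonoidAlgebra ℤ (MulAction.stabilizer Γ (a, x)))
        (homIn (sec c (gen g S) (gen_eqv g S)) (fun a : ι × Fin n => (p a.1, c a.2)) (a, x))

/-- Module Hat. The map `ν` on the parts at all cells, cut off. -/
def StHat : Prop :=
  ∀ (Γ : Type u) [Group Γ] (C : Type v) [MulAction Γ C] (ι : Type) [Finite ι] (n : ℕ)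
    (c : Fin n → C), Function.Injective c → ∀ ν : Module.End (ZG Γ) (F Γ ι),
    ∃ νh : Module.End (ZG Γ) (F Γ (ι × Fin n)),
      (∀ (x : C) (y : F Γ (ι × Fin n)), In (cp ι c) {x} y → In (cp ι c) {x} (νh y)) ∧
      (∀ (x : C) (y : F Γ (ι × Fin n)), In (cp ι c) {x} y →
        (∀ (j : ι) (γ : Γ), (ν (eps Γ ι n y) j).coeff γ ≠ 0 → γ⁻¹ • x ∈ Set.range c) →
        eps Γ ι n (νh y) = ν (eps Γ ι n y)) ∧
      ∀ (X : Type v) [MulAction Γ X] (r : X → X → Prop) (p : ι → X), Tr r p p ν →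
        Tr (fun a b : X × C => r a.1 b.1 ∧ b.2 = a.2) (fun a : ι × Fin n => (p a.1, c a.2))
          (fun a : ι × Fin n => (p a.1, c a.2)) νh

/-- `ν` is lowered by a finite filtration whose graded pieces have finite resolutions. -/
def NilFil {S : Type u} [Ring S] {Y : Type u} [AddCommGroup Y] [Module S Y] (ν : Y →ₗ[S] Y) :
    Prop :=
  ∃ (d k : ℕ) (Fil : ℕ → Submodule S Y), Fil 0 = ⊥ ∧ Fil k = ⊤ ∧ Monotone Fil ∧
    (∀ i, ∀ y ∈ Fil (i + 1), ν y ∈ Fil i) ∧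
    ∀ i < k, FFR S d (Fil (i + 1) ⧸ (Fil i).submoduleOf (Fil (i + 1)))

/-- Module Fil2. -/
def StFil2 : Prop :=
  ∀ (Γ : Type u) [Group Γ] (X : Type v) [MulAction Γ X] (C : Type v) [MulAction Γ C]
    (r : X → X → Prop), UR (Γ := Γ) r → ∀ (ι : Type) [Finite ι] (p : ι → X)
    (ν : Module.End (ZG Γ) (F Γ ι)), IsNilpotent ν → Tr r p p ν →
    ∀ (n : ℕ) (c : Fin n → C), Function.Injective c →
    ∀ (P : C → AddSubgroup (F Γ ι)) (hP : Eqv P), Cov c P →
      (∀ x, ∀ f ∈ P x, ∀ Q : Set X, pr p Q f ∈ P x) → (∀ x, ∀ f ∈ P x, ν f ∈ P x) →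
      (∀ a : ι × Fin n, Module.Finite (MonoidAlgebra ℤ (MulAction.stabilizer Γ (p a.1, c a.2)))
        (homIn (sec c P hP) (fun a : ι × Fin n => (p a.1, c a.2)) (p a.1, c a.2))) →
      (∀ a : ι × Fin n, RegCoh (MonoidAlgebra ℤ (MulAction.stabilizer Γ (p a.1, c a.2)))) →
      ∃ νs : sec c P hP →ₗ[ZG Γ] sec c P hP, NilFil νs ∧
        ∀ (x : C) (y : sec c P hP), In (cp ι c) {x} (y : F Γ (ι × Fin n)) →
          In (cp ι c) {x} ((νs y : sec c P hP) : F Γ (ι × Fin n)) ∧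
          eps Γ ι n (νs y) = ν (eps Γ ι n y)

/-- Module Dev2. Devissage for a resolution of length one. -/
def StDev2 : Prop :=
  ∀ (S : Type u) [Ring S] (K : K1C S) (Y E₀ E₁ : Type u) [AddCommGroup Y] [Module S Y]
    [AddCommGroup E₀] [Module S E₀] [AddCommGroup E₁] [Module S E₁] (ν : Y →ₗ[S] Y)
    (ν₀ : E₀ →ₗ[S] E₀) (ν₁ : E₁ →ₗ[S] E₁) (i : E₁ →ₗ[S] E₀) (q : E₀ →ₗ[S] Y),
    Module.Finite S Y → Module.Projective S Y → Function.Injective i → Function.Surjective q →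
    LinearMap.range i = LinearMap.ker q → i ∘ₗ ν₁ = ν₀ ∘ₗ i → q ∘ₗ ν₀ = ν ∘ₗ q →
    NilFil ν₀ → NilFil ν₁ → K.GA (LinearMap.id + ν)

/-! ## The main statements -/

/-- Module NilT. Nilpotent maps along `r` have class zero if `Γ` acts on a tree such that the
stabilisers of pairs (position, vertex) are regular coherent. -/
def StNilT : Prop :=
  ∀ (Γ : Type u) [Group Γ] (K : K1C (ZG Γ)) (X : Type v) [MulAction Γ X] (r : X → X → Prop),
    UR (Γ := Γ) r → ∀ (V : Type v) [MulAction Γ V] (T : SimpleGraph V), TreeAct Γ V T →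
    ∀ (ι : Type) [Finite ι] (p : ι → X) (ν : Module.End (ZG Γ) (F Γ ι)), IsNilpotent ν →
    Tr r p p ν →
    (∀ (i : ι) (v : V), RegCoh (MonoidAlgebra ℤ (MulAction.stabilizer Γ (p i, v)))) →
    K.G ((1 : Module.End (ZG Γ) (F Γ ι)) + ν)

/-- Module TreeCoh. Groups which act on trees with regular noetherian stabilisers are regular
coherent. -/
def StTreeCoh : Prop :=
  ∀ (Γ : Type u) [Group Γ] (V : Type v) [MulAction Γ V] (T : SimpleGraph V), TreeAct Γ V T →
    (∀ v : V, RegNoeth (MonoidAlgebra ℤ (MulAction.stabilizer Γ v))) →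
    (∀ u v : V, T.Adj u v → RegNoeth (MonoidAlgebra ℤ (MulAction.stabilizer Γ (u, v)))) →
    RegCoh (ZG Γ)

/-- Module RayT. -/
def StRayT : Prop :=
  ∀ (Γ : Type u) [Group Γ] (V : Type v) [MulAction Γ V] (T : SimpleGraph V), TreeAct Γ V T →
    ∀ (V' : Type v) [MulAction Γ V'] (T' : SimpleGraph V'), TreeAct Γ V' T' →
    ∀ (K : K1C (ZG Γ)) (S : V → V → Prop), Bar T S →
      (∀ u v, S u v → u ≠ v → ∀ w : V',
        RegCoh (MonoidAlgebra ℤ (MulAction.stabilizer Γ ((v, u), w)))) →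
      NilGood K T 1

/-- The final theorem. -/
def StFinalT : Prop :=
  ∀ (G : Type u) [Group G] (V : Type v) [MulAction G V] (T : SimpleGraph V), TreeAct G V T →
    ∀ (V' : Type v) [MulAction G V'] (T' : SimpleGraph V'), TreeAct G V' T' →
    (∀ v : V, VN.ProjStFree (MulAction.stabilizer G v)) →
    (∀ u v, T.Adj u v → VN.ProjStFree (MulAction.stabilizer G (u, v) × Multiplicative ℤ)) →
    ∀ (S : V → V → Prop), Bar T S →
      (∀ u v, S u v → u ≠ v → ∀ w : V',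
        RegCoh (MonoidAlgebra ℤ (MulAction.stabilizer G ((v, u), w) × Multiplicative ℤ))) →
      VN.ProjStFree G

/-- Module PSub. Subgroups of poly-`ℤ` groups. -/
def StPSub : Prop :=
  ∀ (G : Type) [Group G], PolyZ G → ∀ H : Subgroup G, PolyZ H

end Pool.Agent.Lib.MP_551055_al.PT
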