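import Pool.Agent.Lib.MP_551055_al.PT.MV
import Pool.Agent.Lib.MP_551055_al.LS.Ray
import Pool.Agent.Lib.MP_551055_al.LS.Ind

/-!
# Products of trees: groups acting on trees with regular noetherian stabilisers
-/

set_option autoImplicit false

namespace Pool.Agent.Lib.MP_551055_al.PT

open Pool.Agent.Lib.MP_551055_al
open Pool.Agent.Lib.MP_551055_al.LS
open Pool.Agent.Lib.MP_551055_al.Red (Vec)

universe u v

/-- The sections have a finite resolution. -/
theorem exists_ffr_sec (hInd : StInd.{u, v}) (hFree : StHomFree.{u, v}) {Γ : Type u} [Group Γ]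
    {C : Type v} [MulAction Γ C] {ι : Type} [Finite ι] {n : ℕ} (c : Fin n → C)
    (hc : ∀ k, RegNoeth (MonoidAlgebra ℤ (MulAction.stabilizer Γ (c k))))
    (P : C → AddSubgroup (F Γ ι)) (hP : Eqv P) : ∃ d, FFR (ZG Γ) d (sec c P hP) := by
  classical
  have hloc : ∀ a : ι × Fin n, ∃ d, FFR (MonoidAlgebra ℤ (MulAction.stabilizer Γ (cp ι c a))) d
      (homIn (sec c P hP) (cp ι c) (cp ι c a) ⧸
        (homIn (⊥ : Submodule (ZG Γ) (F Γ (ι × Fin n))) (cp ι c) (cp ι c a)).submoduleOf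
          (homIn (sec c P hP) (cp ι c) (cp ι c a))) := by
    intro a
    have hca : RegNoeth (MonoidAlgebra ℤ (MulAction.stabilizer Γ (cp ι c a))) := hc a.2
    obtain ⟨hN, hres⟩ := hca
    apply hres
    obtain ⟨k, ⟨e⟩⟩ := hFree Γ C (ι × Fin n) (cp ι c) (cp ι c a)
    have h1 : Module.Finite (MonoidAlgebra ℤ (MulAction.stabilizer Γ (cp ι c a)))
        (homIn (⊤ : Submodule (ZG Γ) (F Γ (ι × Fin n))) (cp ι c) (cp ι c a)) :=
      Module.Finite.equiv e.symm
    have h2 : IsNoetherian (MonoidAlgebra ℤ (MulAction.stabilizer Γ (cp ι c a)))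
        (homIn (⊤ : Submodule (ZG Γ) (F Γ (ι × Fin n))) (cp ι c) (cp ι c a)) :=
      isNoetherian_of_isNoetherianRing_of_finite _ _
    have hle : homIn (sec c P hP) (cp ι c) (cp ι c a) ≤
        homIn (⊤ : Submodule (ZG Γ) (F Γ (ι × Fin n))) (cp ι c) (cp ι c a) :=
      fun y hy => ⟨hy.1, trivial⟩
    have h3 : Module.Finite (MonoidAlgebra ℤ (MulAction.stabilizer Γ (cp ι c a)))
        (homIn (sec c P hP) (cp ι c) (cp ι c a)) :=
      Module.Finite.of_injective (Submodule.inclusion hle) (Submodule.inclusion_injective hle)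
    exact Module.Finite.of_surjective _ (Submodule.mkQ_surjective _)
  choose D hD using hloc
  have := Fintype.ofFinite (ι × Fin n)
  have h := hInd Γ C (Finset.univ.sup D) (ι × Fin n) (cp ι c) ⊥ (sec c P hP) bot_le
    (fun Q y hy => by
      rw [(Submodule.mem_bot (ZG Γ)).1 hy, map_zero]
      exact Submodule.zero_mem _)
    (fun Q y hy => pr_mem_sec Q hy)
    (fun a => (hD a).mono (Finset.le_sup (f := D) (Finset.mem_univ a)))
  refine ⟨_, h.congr (Submodule.quotEquivOfEqBot _ ?_)⟩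
  rw [eq_bot_iff]
  intro y hy
  exact (Submodule.mem_bot (ZG Γ)).2 (Subtype.ext ((Submodule.mem_bot (ZG Γ)).1 hy))

/-- Module TreeCoh. -/
theorem stTreeCoh (hTreeC : StTreeC.{u, v}) (hSat : StSatMV.{u, v}) (hMV : StMV.{u, v})
    (hInd : StInd.{u, v}) (hFree : StHomFree.{u, v}) (hSes : StPSes.{u}) : StTreeCoh.{u, v} := by
  classical
  intro Γ _ V _ T hT hv he M _ _ hM
  obtain ⟨_, O, hO1, hO2⟩ := hTreeC Γ V T hT
  have hO : Ori Γ T O := ⟨hO1, hO2⟩
  obtain ⟨r, f, hf⟩ := Module.Finite.exists_fin' (ZG Γ) M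
  have hK : (LinearMap.ker f).FG := Module.FinitePresentation.fg_ker f hf
  obtain ⟨A, n, m, c, b, hA, hmv, hsup⟩ := hSat Γ V T hT O hO (Fin r) (LinearMap.ker f) hK
  obtain ⟨d, hinj, hker, hsur, _⟩ := hMV Γ V T hT O hO (Fin r) (sat (LinearMap.ker f) A)
    (sat (LinearMap.ker f) (SE T O A)) n m c b hmv
  obtain ⟨d₀, hd₀⟩ := exists_ffr_sec hInd hFree c (fun k => hv (c k)) (sat (LinearMap.ker f) A)
    hmv.eqv
  obtain ⟨d₁, hd₁⟩ := exists_ffr_sec hInd hFree b
    (fun k => he (b k).1 (b k).2 (hmv.bO k).2) (sat (LinearMap.ker f) (SE T O A)) hmv.eqe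
  have hmem : ∀ y : sec c (sat (LinearMap.ker f) A) hmv.eqv,
      (eps Γ (Fin r) n ∘ₗ (sec c (sat (LinearMap.ker f) A) hmv.eqv).subtype) y ∈
        LinearMap.ker f := by
    intro y
    obtain ⟨s, hs⟩ := exists_finset (cp (Fin r) c) (y : F Γ (Fin r × Fin n))
    have h1 : (eps Γ (Fin r) n) (y : F Γ (Fin r × Fin n)) =
        ∑ x ∈ s, eps Γ (Fin r) n (pr (cp (Fin r) c) {x} (y : F Γ (Fin r × Fin n))) := by
      rw [← map_sum, sum_pr, hs.eq]
    change (eps Γ (Fin r) n) (y : F Γ (Fin r × Fin n)) ∈ LinearMap.ker f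
    rw [h1]
    exact Submodule.sum_mem _ fun x _ => (y.2 x).1
  let q : sec c (sat (LinearMap.ker f) A) hmv.eqv →ₗ[ZG Γ] LinearMap.ker f :=
    LinearMap.codRestrict (LinearMap.ker f)
      (eps Γ (Fin r) n ∘ₗ (sec c (sat (LinearMap.ker f) A) hmv.eqv).subtype) hmem
  have hq : Function.Surjective q := by
    rintro ⟨k, hk⟩
    obtain ⟨y, hy⟩ := hsur k (hsup k hk)
    exact ⟨y, Subtype.ext hy⟩
  have hdq : LinearMap.range d = LinearMap.ker q := by
    rw [hker]
    exact (LinearMap.ker_codRestrict _ _ _).symm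
  have hFK : FFR (ZG Γ) (max d₀ d₁ + 1) (LinearMap.ker f) :=
    hSes (ZG Γ) (max d₀ d₁) _ _ _ d q hinj hq hdq (hd₁.mono (le_max_right _ _))
      (hd₀.mono (le_max_left _ _))
  exact ⟨max d₀ d₁ + 1 + 1, r, f, hf, hFK⟩

end Pool.Agent.Lib.MP_551055_al.PT
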